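import Mathlib

/-!
# Transfer relations on a finite semilattice and their minimal bases
-/

set_option autoImplicit false

open Set

namespace Pool.Agent.H688.TS

variable {X : Type*} [SemilatticeInf X]

/-- transfer relation on a semilattice -/
structure IsTL (R : X → X → Prop) : Prop where
  refl : ∀ K, R K K
  trans : ∀ K L H, R K L → R L H → R K H
  le : ∀ K H, R K H → K ≤ H
  restr : ∀ K H L, R K H → L ≤ H → R (K ⊓ L) L

/-- one restriction step of an element of `S` -/
def Rest (S : Set (X × X)) (K H : X) : Prop := ∃ f ∈ S, H ≤ f.2 ∧ K = f.1 ⊓ H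

/-- the generated relation -/
def Path (S : Set (X × X)) : X → X → Prop := Relation.ReflTransGen (Rest S)

lemma Rest.le {S : Set (X × X)} {K H : X} (h : Rest S K H) : K ≤ H := by
  obtain ⟨f, _, _, rfl⟩ := h
  exact inf_le_right

lemma Path.le {S : Set (X × X)} {K H : X} (h : Path S K H) : K ≤ H := by
  induction h with
  | refl => exact le_rfl
  | tail _ h2 ih => exact ih.trans h2.le

lemma path_isTL (S : Set (X × X)) : IsTL (Path S) where
  refl := fun _ => Relation.ReflTransGen.refl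
  trans := fun _ _ _ h1 h2 => h1.trans h2
  le := fun _ _ h => h.le
  restr := by
    intro K H L h
    induction h generalizing L with
    | refl => intro hL; rw [inf_eq_right.2 hL]; exact Relation.ReflTransGen.refl
    | @tail M H' h1 h2 ih =>
      intro hL
      have hK : K ≤ M := Path.le h1
      have h3 := ih (M ⊓ L) inf_le_left
      have h4 : K ⊓ (M ⊓ L) = K ⊓ L := by
        rw [← inf_assoc, inf_eq_left.2 hK]
      rw [h4] at h3
      refine Relation.ReflTransGen.tail h3 ?_
      obtain ⟨f, hf, hH, hM⟩ := h2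
      refine ⟨f, hf, hL.trans hH, ?_⟩
      rw [hM, inf_assoc, inf_eq_right.2 hL]

lemma path_of_mem {S : Set (X × X)} {e : X × X} (he : e ∈ S) (hle : e.1 ≤ e.2) : Path S e.1 e.2 :=
  Relation.ReflTransGen.single ⟨e, he, le_rfl, (inf_eq_left.2 hle).symm⟩

/-- the generated relation is the smallest one -/
lemma path_le {S : Set (X × X)} {R : X → X → Prop} (hR : IsTL R) (hS : ∀ e ∈ S, R e.1 e.2)
    {K H : X} (h : Path S K H) : R K H := by
  induction h with
  | refl => exact hR.refl _
  | @tail M H' _ h2 ih =>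
    obtain ⟨f, hf, hH, hM⟩ := h2
    refine hR.trans _ _ _ ih ?_
    rw [hM]
    exact hR.restr _ _ _ (hS f hf) hH

/-- basis of a transfer relation -/
def IsBas (S : Set (X × X)) (T : X → X → Prop) : Prop :=
  (∀ e ∈ S, e.1 < e.2 ∧ T e.1 e.2) ∧
    ∀ R : X → X → Prop, IsTL R → (∀ e ∈ S, R e.1 e.2) → ∀ K H, T K H → R K H

/-- compatible families -/
def Compat (S : Set (X × X)) : Prop :=
  (∀ e ∈ S, e.1 < e.2) ∧
    ∀ e ∈ S, ∀ f ∈ S, e ≠ f → e.1 ≤ f.1 → e.2 ≤ f.2 → e.2 ≤ f.1

/-- indecomposable pairs -/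
def Indec (T : X → X → Prop) (e : X × X) : Prop :=
  e.1 < e.2 ∧ T e.1 e.2 ∧ ∀ L, e.1 < L → L < e.2 → ¬ T L e.2

/-- the canonical basis -/
def Can (T : X → X → Prop) : Set (X × X) :=
  {e | Indec T e ∧ ∀ f, Indec T f → e.2 ≤ f.2 → e.1 = f.1 ⊓ e.2 → f = e}

lemma can_compat {T : X → X → Prop} (hT : IsTL T) : Compat (Can T) := by
  refine ⟨fun e he => he.1.1, ?_⟩
  intro e he f hf hne h1 h2
  by_contra h3
  have hlt : f.1 ⊓ e.2 < e.2 := lt_of_le_of_ne inf_le_right (fun h => h3 (inf_eq_right.1 h))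
  have hT' : T (f.1 ⊓ e.2) e.2 := hT.restr _ _ _ hf.1.2.1 h2
  rcases (le_inf h1 he.1.1.le).lt_or_eq with h4 | h4
  · exact he.1.2.2 _ h4 hlt hT'
  · exact hne (he.2 f hf.1 h2 h4).symm

section finite

variable [Finite X]

/-- every indecomposable pair is a restriction of a canonical one -/
lemma exists_can {T : X → X → Prop} {f : X × X} (hf : Indec T f) :
    ∃ e ∈ Can T, f.2 ≤ e.2 ∧ f.1 = e.1 ⊓ f.2 := by
  let A : Set (X × X) := {e | Indec T e ∧ f.2 ≤ e.2 ∧ f.1 = e.1 ⊓ f.2}
  have hA : A.Nonempty := ⟨f, hf, le_rfl, (inf_eq_left.2 hf.1.le).symm⟩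
  obtain ⟨e, heA, hmax⟩ := (Set.toFinite A).exists_maximalFor (fun e : X × X => e.2) A hA
  refine ⟨e, ⟨heA.1, ?_⟩, heA.2⟩
  intro g hg h1 h2
  have hgA : g ∈ A := by
    refine ⟨hg, heA.2.1.trans h1, ?_⟩
    rw [heA.2.2, h2, inf_assoc, inf_eq_right.2 heA.2.1]
  have h3 : g.2 ≤ e.2 := hmax hgA h1
  have h4 : e.2 = g.2 := le_antisymm h1 h3
  have h5 : e.1 = g.1 := by rw [h2, h4, inf_eq_left.2 hg.1.le]
  exact Prod.ext h5.symm h4.symm

/-- indecomposable pairs generate -/
lemma gen_indec {T : X → X → Prop} (hT : IsTL T) {R : X → X → Prop} (hR : IsTL R)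
    (h : ∀ e, Indec T e → R e.1 e.2) : ∀ (k : ℕ) (K H : X), (Set.Icc K H).ncard ≤ k → T K H →
      R K H := by
  intro k
  induction k with
  | zero =>
    intro K H hk hKH
    have h1 : (Set.Icc K H) = ∅ := by
      rw [← Set.ncard_eq_zero (Set.toFinite _)]; omega
    have h2 : K ∈ Set.Icc K H := ⟨le_rfl, hT.le _ _ hKH⟩
    rw [h1] at h2
    exact h2.elim
  | succ k ih =>
    intro K H hk hKH
    rcases (hT.le _ _ hKH).eq_or_lt with h1 | h1
    · rw [h1]; exact hR.refl _
    by_cases h2 : ∃ L, K < L ∧ L < H ∧ T L H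
    · obtain ⟨L, hKL, hLH, hTL⟩ := h2
      have hTKL : T K L := by
        have := hT.restr K H L hKH hLH.le
        rwa [inf_eq_left.2 hKL.le] at this
      refine hR.trans _ L _ (ih _ _ ?_ hTKL) (ih _ _ ?_ hTL)
      · have : (Set.Icc K L).ncard < (Set.Icc K H).ncard := by
          apply Set.ncard_lt_ncard _ (Set.toFinite _)
          refine ⟨Set.Icc_subset_Icc_right hLH.le, fun h => ?_⟩
          exact absurd (h ⟨h1.le, le_rfl⟩).2 (not_le_of_gt hLH)
        omega
      · have : (Set.Icc L H).ncard < (Set.Icc K H).ncard := by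
          apply Set.ncard_lt_ncard _ (Set.toFinite _)
          refine ⟨Set.Icc_subset_Icc_left hKL.le, fun h => ?_⟩
          exact absurd (h ⟨le_rfl, h1.le⟩).1 (not_le_of_gt hKL)
        omega
    · push Not at h2
      exact h (K, H) ⟨h1, hKH, fun L hL1 hL2 => h2 L hL1 hL2⟩

lemma can_gen {T : X → X → Prop} (hT : IsTL T) {R : X → X → Prop} (hR : IsTL R)
    (h : ∀ e ∈ Can T, R e.1 e.2) (K H : X) (hKH : T K H) : R K H := by
  refine gen_indec hT hR ?_ _ K H le_rfl hKH
  intro f hf
  obtain ⟨e, he, h1, h2⟩ := exists_can hf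
  rw [h2]
  exact hR.restr _ _ _ (h e he) h1

omit [Finite X] in
/-- an indecomposable pair is a restriction of an element of a basis -/
lemma indec_rest {T : X → X → Prop} (hT : IsTL T) {S : Set (X × X)} (hS : IsBas S T)
    {e : X × X} (he : Indec T e) : Rest S e.1 e.2 := by
  have h1 : Path S e.1 e.2 := hS.2 _ (path_isTL S) (fun e he => path_of_mem he (hS.1 e he).1.le)
    _ _ he.2.1
  have hsub : ∀ {K H : X}, Path S K H → T K H := fun {K H} h =>
    path_le hT (fun e he => (hS.1 e he).2) h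
  have key : ∀ H, Path S e.1 H → H = e.2 → Rest S e.1 e.2 := by
    intro H h
    induction h with
    | refl => intro h; exact absurd h he.1.ne
    | @tail M H' h2 h3 ih =>
      intro h4
      subst h4
      rcases h3.le.eq_or_lt with h5 | h5
      · exact ih h5
      rcases (Path.le h2).eq_or_lt with h6 | h6
      · rw [h6]; exact h3
      · exact absurd (hsub (Relation.ReflTransGen.single h3)) (he.2.2 M h6 h5)
  exact key _ h1 rfl

/-- A minimal basis is at most as large as the canonical one. -/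
lemma minimal_le {T : X → X → Prop} (hT : IsTL T) {S : Set (X × X)} (hS : IsBas S T)
    (hmin : ∀ S' : Set (X × X), S' ⊂ S → ¬ IsBas S' T) : S.ncard ≤ (Can T).ncard := by
  have h1 : ∀ e : Can T, ∃ f ∈ S, e.1.2 ≤ f.2 ∧ e.1.1 = f.1 ⊓ e.1.2 :=
    fun e => indec_rest hT hS e.2.1
  choose g hgS hg1 hg2 using h1
  have hsub : Set.range g ⊆ S := by rintro _ ⟨e, rfl⟩; exact hgS e
  have hbas : IsBas (Set.range g) T := by
    refine ⟨fun e he => hS.1 e (hsub he), ?_⟩
    intro R hR h K H hKH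
    refine can_gen hT hR ?_ K H hKH
    intro e he
    rw [hg2 ⟨e, he⟩]
    exact hR.restr _ _ _ (h _ ⟨⟨e, he⟩, rfl⟩) (hg1 ⟨e, he⟩)
  have heq : Set.range g = S := by
    by_contra hne
    exact hmin _ (hsub.ssubset_of_ne hne) hbas
  rw [← heq, ← Set.image_univ]
  refine (Set.ncard_image_le (Set.toFinite _)).trans ?_
  rw [Set.ncard_univ]
  exact le_of_eq rfl

end finite

/-- A compatible family is a minimal basis of the relation it generates. -/
lemma compat_minimal {S : Set (X × X)} (hS : Compat S) :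
    IsBas S (Path S) ∧ ∀ S' : Set (X × X), S' ⊂ S → ¬ IsBas S' (Path S) := by
  refine ⟨⟨fun e he => ⟨hS.1 e he, path_of_mem he (hS.1 e he).le⟩, fun R hR h K H hKH =>
    path_le hR h hKH⟩, ?_⟩
  intro S' hS' hbas
  obtain ⟨e, heS, heS'⟩ := Set.exists_of_ssubset hS'
  have h1 : Path S' e.1 e.2 := hbas.2 _ (path_isTL S')
    (fun f hf => path_of_mem hf (hS.1 f (hS'.1 hf)).le) _ _ (path_of_mem heS (hS.1 e heS).le)
  have key : ∀ H, Path S' e.1 H → H = e.2 → False := by
    intro H h
    induction h with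
    | refl => intro h; exact absurd h (hS.1 e heS).ne
    | @tail M H' h2 h3 ih =>
      intro h4
      subst h4
      rcases h3.le.eq_or_lt with h5 | h5
      · exact ih h5
      obtain ⟨f, hf, h6, h7⟩ := h3
      have hne : e ≠ f := fun h => heS' (h ▸ hf)
      have h8 : e.1 ≤ f.1 := (Path.le h2).trans (by rw [h7]; exact inf_le_left)
      have h9 := hS.2 e heS f (hS'.1 hf) hne h8 h6
      rw [h7, inf_eq_right.2 h9] at h5
      exact lt_irrefl _ h5
  exact key _ h1 rfl

end Pool.Agent.H688.TS
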