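import Mathlib

/-!
# Compatible families of intervals in a grid: the upper bound
-/

set_option autoImplicit false
set_option maxHeartbeats 4000000

namespace Pool.Agent.H688.TS

/-! ### Triples -/

/-- the relation between triples -/
def TA (κ : ℤ) (e f : ℤ × ℤ × ℤ) : Prop :=
  e.1 ≤ f.1 ∧ e.2.1 ≤ f.2.1 ∧ e.2.2 ≤ f.2.2 ∧
    ((f.2.1 < e.2.2 + κ ∧ 0 < e.2.2 + κ) ∨ (f.1 - κ < e.2.1 ∧ f.1 - κ < 0))

/-- the box -/
def InF (n m : ℤ) (e : ℤ × ℤ × ℤ) : Prop :=
  -m ≤ e.1 ∧ e.1 ≤ 0 ∧ 0 ≤ e.2.2 ∧ e.2.2 ≤ n ∧ e.1 ≤ e.2.1 ∧ e.2.1 ≤ e.2.2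

/-- independent set of triples -/
def TInd (κ : ℤ) (S : Finset (ℤ × ℤ × ℤ)) : Prop :=
  ∀ e ∈ S, ∀ f ∈ S, TA κ e f → e.1 = f.1 ∧ e.2.1 = f.2.1 ∧ e.2.2 = f.2.2

lemma TInd.mono {κ : ℤ} {S T : Finset (ℤ × ℤ × ℤ)} (h : TInd κ S) (hT : T ⊆ S) : TInd κ T :=
  fun e he f hf => h e (hT he) f (hT hf)

lemma card_le_of_col {α : Type*} (S : Finset α) (c : α → ℤ) (A : Finset ℤ)
    (h1 : ∀ e ∈ S, c e ∈ A) (h2 : ∀ e ∈ S, ∀ f ∈ S, c e = c f → e = f) : S.card ≤ A.card :=
  Finset.card_le_card_of_injOn c h1 (fun e he f hf h => h2 e he f hf h)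

/-- colour of the triples of the outer shell of the full box -/
def colF (e : ℤ × ℤ × ℤ) : ℤ :=
  if e.2.2 = 0 then (if e.2.1 = -1 then 1 else e.2.1)
  else if e.1 = 0 then e.2.1
  else if e.1 = -1 then e.2.2
  else if e.2.2 = 1 then e.1
  else if e.2.1 ≤ e.1 + 1 then e.2.2 else e.1

/-- the inner triples -/
def Inn (e : ℤ × ℤ × ℤ) : Prop := e.1 ≤ -2 ∧ 2 ≤ e.2.2 ∧ e.1 + 2 ≤ e.2.1 ∧ e.2.1 + 2 ≤ e.2.2

instance (e : ℤ × ℤ × ℤ) : Decidable (Inn e) := by unfold Inn; infer_instance

lemma colF_inj {n m : ℤ} {e f : ℤ × ℤ × ℤ} (he : InF n m e) (hf : InF n m f)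
    (he2 : ¬ Inn e) (hf2 : ¬ Inn f) (hc : colF e = colF f)
    (h1 : TA 2 e f → e.1 = f.1 ∧ e.2.1 = f.2.1 ∧ e.2.2 = f.2.2)
    (h2 : TA 2 f e → f.1 = e.1 ∧ f.2.1 = e.2.1 ∧ f.2.2 = e.2.2) :
    e.1 = f.1 ∧ e.2.1 = f.2.1 ∧ e.2.2 = f.2.2 := by
  obtain ⟨s, t, b⟩ := e
  obtain ⟨s', t', b'⟩ := f
  simp only [InF, Inn, TA, colF] at *
  split_ifs at hc <;> omega

lemma colF_mem {n m : ℤ} {e : ℤ × ℤ × ℤ} (he : InF n m e) (hn : 1 ≤ n)
    (he2 : ¬ Inn e) : colF e ∈ (Finset.Icc (-m) n).erase (-1) := by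
  obtain ⟨s, t, b⟩ := e
  simp only [InF, Inn, colF, Finset.mem_erase, Finset.mem_Icc] at *
  split_ifs <;> omega

/-- the shift of the inner triples -/
def sh (e : ℤ × ℤ × ℤ) : ℤ × ℤ × ℤ := (e.1 + 2, e.2.1, e.2.2 - 2)

lemma sh_inj : Function.Injective sh := by
  rintro ⟨s, t, b⟩ ⟨s', t', b'⟩ h
  simp only [sh, Prod.mk.injEq] at h
  simp only [Prod.mk.injEq]
  omega

/-- bound for the full box -/
theorem full_bound : ∀ (m n : ℕ), m ≤ n → ∀ S : Finset (ℤ × ℤ × ℤ), (∀ e ∈ S, InF n m e) →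
    TInd 2 S → 2 * S.card ≤ (n + 1) * (m + 1) + 1 := by
  intro m
  induction m using Nat.strong_induction_on with
  | _ m ih =>
    intro n hmn S hS hind
    rcases Nat.eq_zero_or_pos m with hm | hm
    · subst hm
      have h1 : S.card ≤ (Finset.Icc (0 : ℤ) ((n : ℤ) / 2)).card := by
        refine card_le_of_col S (fun e => if e.2.1 ≤ n - e.2.2 then e.2.1 else n - e.2.2) _ ?_ ?_
        · intro e he
          have := hS e he
          obtain ⟨s, t, b⟩ := e
          simp only [InF, Finset.mem_Icc] at *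
          split_ifs <;> omega
        · intro e he f hf hc
          have h1 := hS e he
          have h2 := hS f hf
          have h3 := hind e he f hf
          have h4 := hind f hf e he
          obtain ⟨s, t, b⟩ := e
          obtain ⟨s', t', b'⟩ := f
          simp only [InF, TA, Prod.mk.injEq] at *
          split_ifs at hc <;> omega
      rw [Int.card_Icc] at h1
      omega
    · have hn : (1 : ℤ) ≤ n := by omega
      let S1 := S.filter (fun e => ¬ Inn e)
      let S2 := S.filter (fun e => Inn e)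
      have hsum : S.card = S1.card + S2.card := by
        rw [add_comm]
        exact (Finset.card_filter_add_card_filter_not (s := S) (fun e => Inn e)).symm
      have h1 : S1.card ≤ n + m := by
        have : S1.card ≤ ((Finset.Icc (-(m : ℤ)) n).erase (-1)).card := by
          refine card_le_of_col S1 colF _ ?_ ?_
          · intro e he
            rw [Finset.mem_filter] at he
            exact colF_mem (hS e he.1) hn he.2
          · intro e he f hf hc
            rw [Finset.mem_filter] at he hf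
            have := colF_inj (hS e he.1) (hS f hf.1) he.2 hf.2 hc (hind e he.1 f hf.1)
              (hind f hf.1 e he.1)
            exact Prod.ext this.1 (Prod.ext this.2.1 this.2.2)
        rw [Finset.card_erase_of_mem (by simp; omega), Int.card_Icc] at this
        omega
      rcases Nat.lt_or_ge m 2 with hm2 | hm2
      · have hm1 : m = 1 := by omega
        subst hm1
        have h2 : S2 = ∅ := by
          rw [Finset.filter_eq_empty_iff]
          intro e he hi
          have := hS e he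
          obtain ⟨s, t, b⟩ := e
          simp only [InF, Inn] at *
          omega
        rw [hsum, h2, Finset.card_empty]
        omega
      · have h2 := ih (m - 2) (by omega) (n - 2) (by omega) (S2.image sh) ?_ ?_
        · rw [Finset.card_image_of_injective _ sh_inj] at h2
          obtain ⟨k, rfl⟩ := Nat.exists_eq_add_of_le hm2
          obtain ⟨l, rfl⟩ := Nat.exists_eq_add_of_le (show 2 ≤ n by omega)
          have e1 : 2 + l - 2 = l := by omega
          have e2 : 2 + k - 2 = k := by omega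
          rw [e1, e2] at h2
          nlinarith [h1, h2, hsum]
        · intro e he
          rw [Finset.mem_image] at he
          obtain ⟨f, hf, rfl⟩ := he
          rw [Finset.mem_filter] at hf
          have h3 := hS f hf.1
          have h4 := hf.2
          obtain ⟨s, t, b⟩ := f
          simp only [InF, Inn, sh] at *
          omega
        · intro e he f hf
          rw [Finset.mem_image] at he hf
          obtain ⟨e, he, rfl⟩ := he
          obtain ⟨f, hf, rfl⟩ := hf
          rw [Finset.mem_filter] at he hf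
          have h3 := hind e he.1 f hf.1
          obtain ⟨s, t, b⟩ := e
          obtain ⟨s', t', b'⟩ := f
          simp only [TA, sh] at *
          omega

/-- colour of the triples of the outer shell of the layer -/
def colL (e : ℤ × ℤ × ℤ) : ℤ :=
  if e.2.2 = 0 then e.2.1 - 1
  else if e.1 = 0 then e.2.1 + 1
  else if e.1 = -1 then (if e.2.1 = e.2.2 then -1 else e.2.2)
  else if e.2.2 = 1 then (if e.2.1 = e.1 then 1 else e.1)
  else if e.2.1 ≤ e.1 + 1 then e.2.2 else e.1

lemma colL_inj {n m : ℤ} {e f : ℤ × ℤ × ℤ} (he : InF n m e) (hf : InF n m f)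
    (he3 : ¬ (e.2.1 = e.1 ∧ e.2.2 = 0)) (he4 : ¬ (e.1 = 0 ∧ e.2.1 = e.2.2))
    (hf3 : ¬ (f.2.1 = f.1 ∧ f.2.2 = 0)) (hf4 : ¬ (f.1 = 0 ∧ f.2.1 = f.2.2))
    (he2 : ¬ Inn e) (hf2 : ¬ Inn f) (hc : colL e = colL f)
    (h1 : TA 0 e f → e.1 = f.1 ∧ e.2.1 = f.2.1 ∧ e.2.2 = f.2.2)
    (h2 : TA 0 f e → f.1 = e.1 ∧ f.2.1 = e.2.1 ∧ f.2.2 = e.2.2) :
    e.1 = f.1 ∧ e.2.1 = f.2.1 ∧ e.2.2 = f.2.2 := by
  obtain ⟨s, t, b⟩ := e
  obtain ⟨s', t', b'⟩ := f
  simp only [InF, Inn, TA, colL] at *
  split_ifs at hc <;> omega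

lemma colL_mem {n m : ℤ} {e : ℤ × ℤ × ℤ} (he : InF n m e)
    (he3 : ¬ (e.2.1 = e.1 ∧ e.2.2 = 0)) (he4 : ¬ (e.1 = 0 ∧ e.2.1 = e.2.2))
    (he2 : ¬ Inn e) : colL e ∈ (Finset.Icc (-m) n).erase 0 := by
  obtain ⟨s, t, b⟩ := e
  simp only [InF, Inn, colL, Finset.mem_erase, Finset.mem_Icc] at *
  split_ifs <;> omega

/-- bound for the layer -/
theorem layer_bound (m n : ℕ) (hm : 1 ≤ m) (hmn : m ≤ n) (S : Finset (ℤ × ℤ × ℤ))
    (hS : ∀ e ∈ S, InF n m e ∧ ¬ (e.2.1 = e.1 ∧ e.2.2 = 0) ∧ ¬ (e.1 = 0 ∧ e.2.1 = e.2.2))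
    (hind : TInd 0 S) : 2 * S.card ≤ (n + 1) * (m + 1) + 1 := by
  let S1 := S.filter (fun e => ¬ Inn e)
  let S2 := S.filter (fun e => Inn e)
  have hsum : S.card = S1.card + S2.card := by
    rw [add_comm]
    exact (Finset.card_filter_add_card_filter_not (s := S) (fun e => Inn e)).symm
  have h1 : S1.card ≤ n + m := by
    have : S1.card ≤ ((Finset.Icc (-(m : ℤ)) n).erase 0).card := by
      refine card_le_of_col S1 colL _ ?_ ?_
      · intro e he
        rw [Finset.mem_filter] at he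
        exact colL_mem (hS e he.1).1 (hS e he.1).2.1 (hS e he.1).2.2 he.2
      · intro e he f hf hc
        rw [Finset.mem_filter] at he hf
        have := colL_inj (hS e he.1).1 (hS f hf.1).1 (hS e he.1).2.1 (hS e he.1).2.2
          (hS f hf.1).2.1 (hS f hf.1).2.2 he.2 hf.2 hc (hind e he.1 f hf.1)
          (hind f hf.1 e he.1)
        exact Prod.ext this.1 (Prod.ext this.2.1 this.2.2)
    rw [Finset.card_erase_of_mem (by simp), Int.card_Icc] at this
    omega
  rcases Nat.lt_or_ge m 2 with hm2 | hm2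
  · have hm1 : m = 1 := by omega
    subst hm1
    have h2 : S2 = ∅ := by
      rw [Finset.filter_eq_empty_iff]
      intro e he hi
      have := (hS e he).1
      obtain ⟨s, t, b⟩ := e
      simp only [InF, Inn] at *
      omega
    rw [hsum, h2, Finset.card_empty]
    omega
  · have h2 := full_bound (m - 2) (n - 2) (by omega) (S2.image sh) ?_ ?_
    · rw [Finset.card_image_of_injective _ sh_inj] at h2
      obtain ⟨k, rfl⟩ := Nat.exists_eq_add_of_le hm2
      obtain ⟨l, rfl⟩ := Nat.exists_eq_add_of_le (show 2 ≤ n by omega)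
      have e1 : 2 + l - 2 = l := by omega
      have e2 : 2 + k - 2 = k := by omega
      rw [e1, e2] at h2
      nlinarith [h1, h2, hsum]
    · intro e he
      rw [Finset.mem_image] at he
      obtain ⟨f, hf, rfl⟩ := he
      rw [Finset.mem_filter] at hf
      have h3 := (hS f hf.1).1
      have h4 := hf.2
      obtain ⟨s, t, b⟩ := f
      simp only [InF, Inn, sh] at *
      omega
    · intro e he f hf
      rw [Finset.mem_image] at he hf
      obtain ⟨e, he, rfl⟩ := he
      obtain ⟨f, hf, rfl⟩ := hf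
      rw [Finset.mem_filter] at he hf
      have h3 := hind e he.1 f hf.1
      obtain ⟨s, t, b⟩ := e
      obtain ⟨s', t', b'⟩ := f
      simp only [TA, sh] at *
      omega

end Pool.Agent.H688.TS
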