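import Mathlib
import Pool.Agent.H688.TS.Comb

/-!
# Compatible families of intervals in a grid: the recursion
-/

set_option autoImplicit false
set_option maxHeartbeats 4000000

namespace Pool.Agent.H688.TS

/-- the relation between intervals `e = (a, x, b, y)`, which stands for the pair
`(a, x) < (b, y)` -/
def QA (e f : ℤ × ℤ × ℤ × ℤ) : Prop :=
  e.1 ≤ f.1 ∧ e.2.1 ≤ f.2.1 ∧ e.2.2.1 ≤ f.2.2.1 ∧ e.2.2.2 ≤ f.2.2.2 ∧
    ¬ (e.2.2.1 ≤ f.1 ∧ e.2.2.2 ≤ f.2.1)

/-- the intervals of a grid -/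
def InG (a0 x0 n m : ℤ) (e : ℤ × ℤ × ℤ × ℤ) : Prop :=
  a0 ≤ e.1 ∧ e.1 ≤ e.2.2.1 ∧ e.2.2.1 ≤ a0 + n ∧ x0 ≤ e.2.1 ∧ e.2.1 ≤ e.2.2.2 ∧
    e.2.2.2 ≤ x0 + m ∧ ¬ (e.1 = e.2.2.1 ∧ e.2.1 = e.2.2.2)

/-- independent sets of intervals -/
def QInd (S : Finset (ℤ × ℤ × ℤ × ℤ)) : Prop :=
  ∀ e ∈ S, ∀ f ∈ S, QA e f →
    e.1 = f.1 ∧ e.2.1 = f.2.1 ∧ e.2.2.1 = f.2.2.1 ∧ e.2.2.2 = f.2.2.2

lemma QInd.mono {S T : Finset (ℤ × ℤ × ℤ × ℤ)} (h : QInd S) (hT : T ⊆ S) : QInd T :=
  fun e he f hf => h e (hT he) f (hT hf)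

/-- the bound -/
def BB : ℕ → ℕ → ℕ
  | _, 0 => 0
  | n, 1 => n + n / 2 + 1
  | n, m + 2 => ((n + 1) * (m + 3) + 1) / 2 + BB (n - 1) (m + 1)

/-- the elements of the layer -/
def Lay (a0 x0 m : ℤ) (e : ℤ × ℤ × ℤ × ℤ) : Prop := e.1 = a0 ∨ e.2.2.2 = x0 + m

instance (a0 x0 m : ℤ) (e : ℤ × ℤ × ℤ × ℤ) : Decidable (Lay a0 x0 m e) := by
  unfold Lay; infer_instance

/-- the coordinates in the layer -/
def lc (a0 x0 m : ℤ) (e : ℤ × ℤ × ℤ × ℤ) : ℤ × ℤ × ℤ :=
  (e.2.1 - x0 - m, (e.1 - a0) + (e.2.2.2 - x0 - m), e.2.2.1 - a0)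

/-- bound for the intervals of the layer -/
lemma lay_card (n m : ℕ) (hm : 1 ≤ m) (hmn : m ≤ n) (a0 x0 : ℤ) (S : Finset (ℤ × ℤ × ℤ × ℤ))
    (hS : ∀ e ∈ S, InG a0 x0 n m e) (hL : ∀ e ∈ S, Lay a0 x0 m e) (hind : QInd S) :
    2 * S.card ≤ (n + 1) * (m + 1) + 1 := by
  have hinj : Set.InjOn (lc a0 x0 m) (S : Set (ℤ × ℤ × ℤ × ℤ)) := by
    intro e he f hf h
    have h1 := hS e he
    have h2 := hS f hf
    have h3 := hL e he
    have h4 := hL f hf
    obtain ⟨a, x, b, y⟩ := e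
    obtain ⟨a', x', b', y'⟩ := f
    simp only [lc, InG, Lay, Prod.mk.injEq] at *
    omega
  rw [← Finset.card_image_of_injOn hinj]
  refine layer_bound m n hm hmn _ ?_ ?_
  · intro e he
    rw [Finset.mem_image] at he
    obtain ⟨e, he, rfl⟩ := he
    have h1 := hS e he
    have h3 := hL e he
    obtain ⟨a, x, b, y⟩ := e
    simp only [lc, InG, Lay, InF] at *
    omega
  · intro e he f hf
    rw [Finset.mem_image] at he hf
    obtain ⟨e, he, rfl⟩ := he
    obtain ⟨f, hf, rfl⟩ := hf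
    have h0 := hind e he f hf
    have h1 := hS e he
    have h2 := hS f hf
    have h3 := hL e he
    have h4 := hL f hf
    obtain ⟨a, x, b, y⟩ := e
    obtain ⟨a', x', b', y'⟩ := f
    simp only [lc, InG, Lay, TA, QA] at *
    omega

/-- the case of height one -/
lemma base_card (n : ℕ) (a0 x0 : ℤ) (S : Finset (ℤ × ℤ × ℤ × ℤ))
    (hS : ∀ e ∈ S, InG a0 x0 n 1 e) (hind : QInd S) : S.card ≤ n + n / 2 + 1 := by
  have h : S.card ≤ (Finset.Icc (-((n : ℤ) / 2)) (n : ℤ)).card := by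
    refine card_le_of_col S (fun e => if e.2.1 = e.2.2.2 then
      (if e.2.1 = x0 then e.2.2.1 - a0 else e.1 - a0 + 1) else
      (if e.1 - a0 ≤ a0 + n - e.2.2.1 then -(e.1 - a0) else -(a0 + n - e.2.2.1))) _ ?_ ?_
    · intro e he
      have h1 := hS e he
      obtain ⟨a, x, b, y⟩ := e
      simp only [InG, Finset.mem_Icc] at *
      split_ifs <;> omega
    · intro e he f hf hc
      have h1 := hS e he
      have h2 := hS f hf
      have h3 := hind e he f hf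
      have h4 := hind f hf e he
      obtain ⟨a, x, b, y⟩ := e
      obtain ⟨a', x', b', y'⟩ := f
      simp only [InG, QA, Prod.mk.injEq] at *
      split_ifs at hc <;> omega
  rw [Int.card_Icc] at h
  omega

theorem grid_bound : ∀ (m n : ℕ), 1 ≤ m → m ≤ n → ∀ (a0 x0 : ℤ) (S : Finset (ℤ × ℤ × ℤ × ℤ)),
    (∀ e ∈ S, InG a0 x0 n m e) → QInd S → S.card ≤ BB n m := by
  intro m
  induction m with
  | zero => intro n h; omega
  | succ m ih =>
    intro n _ hmn a0 x0 S hS hind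
    rcases Nat.eq_zero_or_pos m with hm | hm
    · subst hm
      exact base_card n a0 x0 S (by simpa using hS) hind
    · obtain ⟨k, rfl⟩ := Nat.exists_eq_add_of_le hm
      let S1 := S.filter (fun e => Lay a0 x0 ((1 + k + 1 : ℕ) : ℤ) e)
      let S2 := S.filter (fun e => ¬ Lay a0 x0 ((1 + k + 1 : ℕ) : ℤ) e)
      have hsum : S.card = S1.card + S2.card :=
        (Finset.card_filter_add_card_filter_not (s := S) _).symm
      have h1 := lay_card n (1 + k + 1) (by omega) hmn a0 x0 S1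
        (fun e he => hS e (Finset.mem_filter.1 he).1) (fun e he => (Finset.mem_filter.1 he).2)
        (hind.mono (Finset.filter_subset _ _))
      have h2 := ih (n - 1) (by omega) (by omega) (a0 + 1) x0 S2 ?_
        (hind.mono (Finset.filter_subset _ _))
      · have e1 : 1 + k + 1 = k + 2 := by ring
        have e2 : 1 + k = k + 1 := by ring
        rw [e1] at h1 ⊢
        rw [e2] at h2
        rw [BB, hsum]
        have h3 : (n + 1) * (k + 2 + 1) + 1 = (n + 1) * (k + 3) + 1 := by ring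
        rw [h3] at h1
        omega
      · intro e he
        rw [Finset.mem_filter] at he
        have h3 := hS e he.1
        have h4 := he.2
        obtain ⟨a, x, b, y⟩ := e
        simp only [InG, Lay] at *
        push_cast at *
        have : ((n - 1 : ℕ) : ℤ) = n - 1 := by omega
        omega

end Pool.Agent.H688.TS
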