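import Mathlib
import Pool.Agent.H688.TS.Comb

/-!
# Extremal families of the full box and of the layer, both sides even
-/

set_option autoImplicit false
set_option maxHeartbeats 4000000

namespace Pool.Agent.H688.TS

lemma hit_of_card {α : Type*} (S : Finset α) (c : α → ℤ) (A : Finset ℤ)
    (h1 : ∀ e ∈ S, c e ∈ A) (h2 : ∀ e ∈ S, ∀ f ∈ S, c e = c f → e = f)
    (h3 : A.card ≤ S.card) : ∀ a ∈ A, ∃ e ∈ S, c e = a := by
  classical
  have h4 : (S.image c).card = S.card :=
    Finset.card_image_of_injOn (fun e he f hf h => h2 e he f hf h)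
  have h5 : S.image c ⊆ A := by
    intro a ha
    rw [Finset.mem_image] at ha
    obtain ⟨e, he, rfl⟩ := ha
    exact h1 e he
  have h6 : S.image c = A := Finset.eq_of_subset_of_card_le h5 (by omega)
  intro a ha
  rw [← h6, Finset.mem_image] at ha
  exact ha

/-- `e` and `w` both lie in an independent set -/
lemma TInd.two {κ : ℤ} {S : Finset (ℤ × ℤ × ℤ)} (h : TInd κ S) {s t b s' t' b' : ℤ}
    (he : (s, t, b) ∈ S) (hf : (s', t', b') ∈ S) :
    (TA κ (s, t, b) (s', t', b') → s = s' ∧ t = t' ∧ b = b') ∧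
    (TA κ (s', t', b') (s, t, b) → s = s' ∧ t = t' ∧ b = b') := by
  refine ⟨fun h1 => h _ he _ hf h1, fun h1 => ?_⟩
  have := h _ hf _ he h1
  dsimp only at this
  omega

lemma mkF {n m s t b : ℤ} (h : (-m ≤ s ∧ s ≤ 0) ∧ (0 ≤ b ∧ b ≤ n) ∧ s ≤ t ∧ t ≤ b) :
    InF n m (s, t, b) :=
  ⟨h.1.1, h.1.2, h.2.1.1, h.2.1.2, h.2.2.1, h.2.2.2⟩

lemma mem_tr {S : Finset (ℤ × ℤ × ℤ)} {s t b s' t' b' : ℤ} (h : (s', t', b') ∈ S)
    (h1 : s = s') (h2 : t = t') (h3 : b = b') : (s, t, b) ∈ S := by
  subst h1 h2 h3; exact h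

/-- base case -/
lemma full_unique_zero (k : ℕ) (S : Finset (ℤ × ℤ × ℤ)) (hS : ∀ e ∈ S, InF (2 * k : ℕ) (0 : ℕ) e)
    (hind : TInd 2 S) (hcard : k + 1 ≤ S.card) :
    ∀ j : ℕ, j ≤ k → ((0 : ℤ), (k : ℤ) - j, (k : ℤ) + j) ∈ S := by
  have hhit := hit_of_card S (fun e => if e.2.1 ≤ 2 * k - e.2.2 then e.2.1 else 2 * k - e.2.2)
    (Finset.Icc (0 : ℤ) k) ?_ ?_ ?_
  · intro j
    induction j with
    | zero =>
      intro _
      obtain ⟨⟨s, t, b⟩, he, hc⟩ := hhit k (by simp)
      have h1 := hS _ he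
      have h2 : s = 0 ∧ t = k ∧ b = k := by
        simp only [InF] at *
        push_cast at *
        split_ifs at hc <;> omega
      obtain ⟨rfl, rfl, rfl⟩ := h2
      simpa using he
    | succ j ih =>
      intro hj
      have hw := ih (by omega)
      obtain ⟨⟨s, t, b⟩, he, hc⟩ := hhit (k - j - 1) (by simp; omega)
      have h1 := hS _ he
      have h3 := hind.two he hw
      have h2 : s = 0 ∧ t = k - j - 1 ∧ b = k + j + 1 := by
        simp only [InF, TA] at *
        push_cast at *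
        split_ifs at hc <;> omega
      obtain ⟨rfl, rfl, rfl⟩ := h2
      push_cast
      have e1 : (k : ℤ) - (j + 1) = k - j - 1 := by ring
      have e2 : (k : ℤ) + (j + 1) = k + j + 1 := by ring
      rw [e1, e2]
      exact he
  · intro e he
    have := hS e he
    obtain ⟨s, t, b⟩ := e
    simp only [InF, Finset.mem_Icc] at *
    push_cast at *
    split_ifs <;> omega
  · intro e he f hf hc
    have h1 := hS e he
    have h2 := hS f hf
    have h3 := hind e he f hf
    have h4 := hind f hf e he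
    obtain ⟨s, t, b⟩ := e
    obtain ⟨s', t', b'⟩ := f
    simp only [InF, TA, Prod.mk.injEq] at *
    push_cast at *
    split_ifs at hc <;> omega
  · rw [Int.card_Icc]
    omega

/-- The shell of an extremal family of the full box. -/
lemma full_shell (μ κ : ℕ) (hμ : 1 ≤ μ) (S : Finset (ℤ × ℤ × ℤ))
    (hS : ∀ e ∈ S, InF (2 * μ + 2 * κ : ℕ) (2 * μ : ℕ) e) (hind : TInd 2 S)
    (hinn : ∀ s t b : ℤ, InF (2 * μ + 2 * κ : ℕ) (2 * μ : ℕ) (s, t, b) → Inn (s, t, b) →
      s + t + b = 2 * κ → (s, t, b) ∈ S)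
    (hhit : ∀ c : ℤ, -(2 * μ) ≤ c → c ≤ 2 * μ + 2 * κ → c ≠ -1 →
      ∃ e ∈ S, ¬ Inn e ∧ colF e = c) :
    ∀ s t b : ℤ, InF (2 * μ + 2 * κ : ℕ) (2 * μ : ℕ) (s, t, b) → s + t + b = 2 * κ →
      (s, t, b) ∈ S := by
  -- stage 1
  have st1 : ∀ j : ℤ, 1 ≤ j → j ≤ μ → (-2 * j, κ + j, κ + j) ∈ S := by
    intro j hj1 hj2
    obtain ⟨⟨s, t, b⟩, he, hi, hc⟩ := hhit (-2 * j) (by omega) (by omega) (by omega)
    have h1 := hS _ he
    have hw := hinn (-2 * j) (κ + j - 1) (κ + j + 1) (mkF (by omega))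
      (by simp only [Inn]; omega) (by omega)
    have h3 := hind.two he hw
    have h2 : s = -2 * j ∧ t = κ + j ∧ b = κ + j := by
      simp only [InF, TA, Inn, colF] at *
      push_cast at *
      split_ifs at hc <;> omega
    obtain ⟨rfl, rfl, rfl⟩ := h2
    exact he
  have st2 : ∀ j : ℤ, 1 ≤ j → j ≤ μ → (-j, -j, 2 * κ + 2 * j) ∈ S := by
    intro j hj1 hj2
    obtain ⟨⟨s, t, b⟩, he, hi, hc⟩ := hhit (2 * κ + 2 * j) (by omega) (by omega) (by omega)
    have h1 := hS _ he
    have hw := hinn (-j - 1) (-j + 1) (2 * κ + 2 * j) (mkF (by omega))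
      (by simp only [Inn]; omega) (by omega)
    have h3 := hind.two he hw
    have h2 : s = -j ∧ t = -j ∧ b = 2 * κ + 2 * j := by
      simp only [InF, TA, Inn, colF] at *
      push_cast at *
      split_ifs at hc <;> omega
    obtain ⟨rfl, rfl, rfl⟩ := h2
    exact he
  have st3 : ∀ j : ℤ, 1 ≤ j → j + 1 ≤ μ → (-2 * j - 1, κ + j, κ + j + 1) ∈ S := by
    intro j hj1 hj2
    obtain ⟨⟨s, t, b⟩, he, hi, hc⟩ := hhit (-2 * j - 1) (by omega) (by omega) (by omega)
    have h1 := hS _ he
    have hw := hinn (-2 * j - 1) (κ + j - 1) (κ + j + 2) (mkF (by omega))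
      (by simp only [Inn]; omega) (by omega)
    have h3 := hind.two he hw
    have h4 := hind.two he (st1 j (by omega) (by omega))
    have h5 := hind.two he (st1 (j + 1) (by omega) (by omega))
    have h2 : s = -2 * j - 1 ∧ t = κ + j ∧ b = κ + j + 1 := by
      simp only [InF, TA, Inn, colF] at *
      push_cast at *
      split_ifs at hc <;> omega
    obtain ⟨rfl, rfl, rfl⟩ := h2
    exact he
  have st4 : ∀ j : ℤ, 1 ≤ j → j + 1 ≤ μ → (-j - 1, -j, 2 * κ + 2 * j + 1) ∈ S := by
    intro j hj1 hj2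
    obtain ⟨⟨s, t, b⟩, he, hi, hc⟩ := hhit (2 * κ + 2 * j + 1) (by omega) (by omega) (by omega)
    have h1 := hS _ he
    have hw := hinn (-j - 2) (-j + 1) (2 * κ + 2 * j + 1) (mkF (by omega))
      (by simp only [Inn]; omega) (by omega)
    have h3 := hind.two he hw
    have h4 := hind.two he (st2 j (by omega) (by omega))
    have h5 := hind.two he (st2 (j + 1) (by omega) (by omega))
    have h2 : s = -j - 1 ∧ t = -j ∧ b = 2 * κ + 2 * j + 1 := by
      simp only [InF, TA, Inn, colF] at *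
      push_cast at *
      split_ifs at hc <;> omega
    obtain ⟨rfl, rfl, rfl⟩ := h2
    exact he
  have st5 : ∀ j : ℕ, j ≤ κ + 1 → ((-1 : ℤ), (j : ℤ) - 1, 2 * (κ : ℤ) + 2 - j) ∈ S := by
    intro j
    induction j with
    | zero =>
      intro _
      exact mem_tr (st2 1 le_rfl (by omega)) rfl (by simp) (by push_cast; omega)
    | succ j ih =>
      intro hj
      have h4 := ih (by omega)
      obtain ⟨⟨s, t, b⟩, he, hi, hc⟩ := hhit (2 * κ + 1 - j) (by omega) (by omega) (by omega)
      have h1 := hS _ he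
      have h5 := hind.two he h4
      have h6 := hind.two he (st1 1 le_rfl (by omega))
      have h7 : j + 1 ≤ κ → _ := fun hjk => hind.two he
        (hinn (-2) (j + 1) (2 * κ + 1 - j) (mkF (by omega))
          (by simp only [Inn]; omega) (by omega))
      have h2 : s = -1 ∧ t = j ∧ b = 2 * κ + 1 - j := by
        simp only [InF, TA, Inn, colF] at *
        push_cast at *
        split_ifs at hc <;> omega
      obtain ⟨rfl, rfl, rfl⟩ := h2
      exact mem_tr he rfl (by push_cast; omega) (by push_cast; omega)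
  have st6 : ∀ j : ℕ, j ≤ κ → ((0 : ℤ), (κ : ℤ) - j, (κ : ℤ) + j) ∈ S := by
    intro j
    induction j with
    | zero =>
      intro _
      obtain ⟨⟨s, t, b⟩, he, hi, hc⟩ := hhit κ (by omega) (by omega) (by omega)
      have h1 := hS _ he
      have h5 := hind.two he (st5 (κ + 1) le_rfl)
      have h2 : s = 0 ∧ t = κ ∧ b = κ := by
        simp only [InF, TA, Inn, colF] at *
        push_cast at *
        split_ifs at hc <;> omega
      obtain ⟨rfl, rfl, rfl⟩ := h2
      simpa using he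
    | succ j ih =>
      intro hj
      have h4 := ih (by omega)
      obtain ⟨⟨s, t, b⟩, he, hi, hc⟩ := hhit (κ - (j + 1)) (by omega) (by omega) (by omega)
      have h1 := hS _ he
      have h5 := hind.two he h4
      have h6 := hind.two he (st5 (κ + 1) le_rfl)
      have h7 := hind.two he (st5 (κ - j) (by omega))
      have e0 : ((κ - j : ℕ) : ℤ) = κ - j := by omega
      rw [e0] at h7
      have h2 : s = 0 ∧ t = κ - (j + 1) ∧ b = κ + (j + 1) := by
        simp only [InF, TA, Inn, colF] at *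
        push_cast at *
        split_ifs at hc <;> omega
      obtain ⟨rfl, rfl, rfl⟩ := h2
      push_cast
      exact he
  intro s t b he hl
  by_cases hi : Inn (s, t, b)
  · exact hinn s t b he hi hl
  · simp only [InF, Inn] at he hi
    push_cast at he
    by_cases c0 : s = 0
    · have := st6 (κ - t).toNat (by omega)
      exact mem_tr this c0 (by omega) (by omega)
    by_cases c1 : s = -1
    · have := st5 (t + 1).toNat (by omega)
      exact mem_tr this c1 (by omega) (by omega)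
    by_cases c2 : t = s
    · exact mem_tr (st2 (-s) (by omega) (by omega)) (by omega) (by omega) (by omega)
    by_cases c3 : t = s + 1
    · exact mem_tr (st4 (-s - 1) (by omega) (by omega)) (by omega) (by omega) (by omega)
    by_cases c4 : t = b
    · exact mem_tr (st1 (b - κ) (by omega) (by omega)) (by omega) (by omega) (by omega)
    · exact mem_tr (st3 (b - κ - 1) (by omega) (by omega)) (by omega) (by omega) (by omega)

/-- The extremal family of the full box with even sides. -/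
theorem full_unique (μ : ℕ) : ∀ (κ : ℕ) (S : Finset (ℤ × ℤ × ℤ)),
    (∀ e ∈ S, InF (2 * μ + 2 * κ : ℕ) (2 * μ : ℕ) e) → TInd 2 S →
    (2 * μ + 2 * κ + 1) * (2 * μ + 1) + 1 ≤ 2 * S.card →
    ∀ s t b : ℤ, InF (2 * μ + 2 * κ : ℕ) (2 * μ : ℕ) (s, t, b) → s + t + b = 2 * κ →
      (s, t, b) ∈ S := by
  induction μ with
  | zero =>
    intro κ S hS hind hcard s t b he hl
    have h1 := full_unique_zero κ S (by simpa using hS) hind (by omega)
    simp only [InF] at he
    push_cast at he
    exact mem_tr (h1 (κ - t).toNat (by omega)) (by omega) (by omega) (by omega)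
  | succ μ ih =>
    intro κ S hS hind hcard
    let S1 := S.filter (fun e => ¬ Inn e)
    let S2 := S.filter (fun e => Inn e)
    have hsum : S.card = S1.card + S2.card := by
      rw [add_comm]
      exact (Finset.card_filter_add_card_filter_not (s := S) (fun e => Inn e)).symm
    have c1 : ∀ e ∈ S1, colF e ∈ (Finset.Icc (-((2 * (μ + 1) : ℕ) : ℤ))
        ((2 * (μ + 1) + 2 * κ : ℕ) : ℤ)).erase (-1) := by
      intro e he
      rw [Finset.mem_filter] at he
      exact colF_mem (hS e he.1) (by push_cast; omega) he.2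
    have c2 : ∀ e ∈ S1, ∀ f ∈ S1, colF e = colF f → e = f := by
      intro e he f hf hc
      rw [Finset.mem_filter] at he hf
      have := colF_inj (hS e he.1) (hS f hf.1) he.2 hf.2 hc (hind e he.1 f hf.1)
        (hind f hf.1 e he.1)
      exact Prod.ext this.1 (Prod.ext this.2.1 this.2.2)
    have hA : ((Finset.Icc (-((2 * (μ + 1) : ℕ) : ℤ))
        ((2 * (μ + 1) + 2 * κ : ℕ) : ℤ)).erase (-1)).card = 4 * μ + 4 + 2 * κ := by
      rw [Finset.card_erase_of_mem (by rw [Finset.mem_Icc]; omega), Int.card_Icc]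
      omega
    have h1 : S1.card ≤ 4 * μ + 4 + 2 * κ := by
      rw [← hA]
      exact card_le_of_col S1 colF _ c1 c2
    have hS2 : ∀ e ∈ S2.image sh, InF (2 * μ + 2 * κ : ℕ) (2 * μ : ℕ) e := by
      intro e he
      rw [Finset.mem_image] at he
      obtain ⟨f, hf, rfl⟩ := he
      rw [Finset.mem_filter] at hf
      have h3 := hS f hf.1
      have h4 := hf.2
      obtain ⟨s, t, b⟩ := f
      simp only [InF, Inn, sh] at *
      push_cast at *
      omega
    have hind2 : TInd 2 (S2.image sh) := by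
      intro e he f hf
      rw [Finset.mem_image] at he hf
      obtain ⟨e, he, rfl⟩ := he
      obtain ⟨f, hf, rfl⟩ := hf
      rw [Finset.mem_filter] at he hf
      have h3 := hind e he.1 f hf.1
      obtain ⟨s, t, b⟩ := e
      obtain ⟨s', t', b'⟩ := f
      simp only [TA, sh] at *
      omega
    have hc2 : (S2.image sh).card = S2.card := Finset.card_image_of_injective _ sh_inj
    have h2 := full_bound (2 * μ) (2 * μ + 2 * κ) (by omega) (S2.image sh) hS2 hind2
    rw [hc2] at h2
    have e1 : (2 * (μ + 1) + 2 * κ + 1) * (2 * (μ + 1) + 1) + 1 =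
      (2 * μ + 2 * κ + 1) * (2 * μ + 1) + 1 + 2 * (4 * μ + 4 + 2 * κ) := by ring
    rw [e1] at hcard
    have ih2 := ih κ (S2.image sh) hS2 hind2 (by rw [hc2]; omega)
    refine full_shell (μ + 1) κ (by omega) S hS hind ?_ ?_
    · intro s t b he hi hl
      have h3 := ih2 (s + 2) t (b - 2) (by
        simp only [InF, Inn] at *
        push_cast at *
        omega) (by omega)
      rw [Finset.mem_image] at h3
      obtain ⟨⟨s', t', b'⟩, hf, h4⟩ := h3
      simp only [sh, Prod.mk.injEq] at h4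
      rw [Finset.mem_filter] at hf
      exact mem_tr hf.1 (by omega) (by omega) (by omega)
    · intro c hc1 hc2' hc3
      have h3 := hit_of_card S1 colF _ c1 c2 (by rw [hA]; omega) c (by
        rw [Finset.mem_erase, Finset.mem_Icc]
        push_cast at *
        omega)
      obtain ⟨e, he, hce⟩ := h3
      rw [Finset.mem_filter] at he
      exact ⟨e, he.1, he.2, hce⟩

/-- families of triples of a layer -/
def LayOK (n m : ℕ) (T : Finset (ℤ × ℤ × ℤ)) : Prop :=
  (∀ e ∈ T, InF n m e ∧ ¬ (e.2.1 = e.1 ∧ e.2.2 = 0) ∧ ¬ (e.1 = 0 ∧ e.2.1 = e.2.2)) ∧ TInd 0 T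

/-- the forced elements of an extremal family of a layer -/
def Forced (κ : ℤ) (n m : ℕ) (T : Finset (ℤ × ℤ × ℤ)) : Prop :=
  (∀ s t b : ℤ, InF n m (s, t, b) → s + t + b = 2 * κ → s ≤ -1 →
    ¬ (s = -1 ∧ t = κ ∧ b = κ + 1) → (s, t, b) ∈ T) ∧ (-1, κ, κ) ∈ T ∧ (0, κ, κ + 1) ∈ T

/-- The shell of an extremal family of the layer. -/
lemma lay_shell (μ κ : ℕ) (hμ : 1 ≤ μ) (S : Finset (ℤ × ℤ × ℤ))
    (hS : ∀ e ∈ S, InF (2 * μ + 2 * κ : ℕ) (2 * μ : ℕ) e ∧ ¬ (e.2.1 = e.1 ∧ e.2.2 = 0) ∧
      ¬ (e.1 = 0 ∧ e.2.1 = e.2.2)) (hind : TInd 0 S)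
    (hinn : ∀ s t b : ℤ, InF (2 * μ + 2 * κ : ℕ) (2 * μ : ℕ) (s, t, b) → Inn (s, t, b) →
      s + t + b = 2 * κ → (s, t, b) ∈ S)
    (hhit : ∀ c : ℤ, -(2 * μ) ≤ c → c ≤ 2 * μ + 2 * κ → c ≠ 0 →
      ∃ e ∈ S, ¬ Inn e ∧ colL e = c) :
    Forced κ (2 * μ + 2 * κ) (2 * μ) S := by
  have st1 : ∀ j : ℤ, 1 ≤ j → j ≤ μ → (-2 * j, κ + j, κ + j) ∈ S := by
    intro j hj1 hj2
    obtain ⟨⟨s, t, b⟩, he, hi, hc⟩ := hhit (-2 * j) (by omega) (by omega) (by omega)
    have h1 := hS _ he
    have hw := hinn (-2 * j) (κ + j - 1) (κ + j + 1) (mkF (by omega))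
      (by simp only [Inn]; omega) (by omega)
    have h3 := hind.two he hw
    have h2 : s = -2 * j ∧ t = κ + j ∧ b = κ + j := by
      simp only [InF, TA, Inn, colL] at *
      push_cast at *
      split_ifs at hc <;> omega
    obtain ⟨rfl, rfl, rfl⟩ := h2
    exact he
  have st2 : ∀ j : ℤ, 1 ≤ j → j ≤ μ → (-j, -j, 2 * κ + 2 * j) ∈ S := by
    intro j hj1 hj2
    obtain ⟨⟨s, t, b⟩, he, hi, hc⟩ := hhit (2 * κ + 2 * j) (by omega) (by omega) (by omega)
    have h1 := hS _ he
    have hw := hinn (-j - 1) (-j + 1) (2 * κ + 2 * j) (mkF (by omega))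
      (by simp only [Inn]; omega) (by omega)
    have h3 := hind.two he hw
    have h2 : s = -j ∧ t = -j ∧ b = 2 * κ + 2 * j := by
      simp only [InF, TA, Inn, colL] at *
      push_cast at *
      split_ifs at hc <;> omega
    obtain ⟨rfl, rfl, rfl⟩ := h2
    exact he
  have st3 : ∀ j : ℤ, 1 ≤ j → j + 1 ≤ μ → (-2 * j - 1, κ + j, κ + j + 1) ∈ S := by
    intro j hj1 hj2
    obtain ⟨⟨s, t, b⟩, he, hi, hc⟩ := hhit (-2 * j - 1) (by omega) (by omega) (by omega)
    have h1 := hS _ he
    have hw := hinn (-2 * j - 1) (κ + j - 1) (κ + j + 2) (mkF (by omega))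
      (by simp only [Inn]; omega) (by omega)
    have h3 := hind.two he hw
    have h4 := hind.two he (st1 j (by omega) (by omega))
    have h5 := hind.two he (st1 (j + 1) (by omega) (by omega))
    have h2 : s = -2 * j - 1 ∧ t = κ + j ∧ b = κ + j + 1 := by
      simp only [InF, TA, Inn, colL] at *
      push_cast at *
      split_ifs at hc <;> omega
    obtain ⟨rfl, rfl, rfl⟩ := h2
    exact he
  have st4 : ∀ j : ℤ, 1 ≤ j → j + 1 ≤ μ → (-j - 1, -j, 2 * κ + 2 * j + 1) ∈ S := by
    intro j hj1 hj2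
    obtain ⟨⟨s, t, b⟩, he, hi, hc⟩ := hhit (2 * κ + 2 * j + 1) (by omega) (by omega) (by omega)
    have h1 := hS _ he
    have hw := hinn (-j - 2) (-j + 1) (2 * κ + 2 * j + 1) (mkF (by omega))
      (by simp only [Inn]; omega) (by omega)
    have h3 := hind.two he hw
    have h4 := hind.two he (st2 j (by omega) (by omega))
    have h5 := hind.two he (st2 (j + 1) (by omega) (by omega))
    have h2 : s = -j - 1 ∧ t = -j ∧ b = 2 * κ + 2 * j + 1 := by
      simp only [InF, TA, Inn, colL] at *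
      push_cast at *
      split_ifs at hc <;> omega
    obtain ⟨rfl, rfl, rfl⟩ := h2
    exact he
  have st5 : ∀ j : ℕ, j ≤ κ → ((-1 : ℤ), (j : ℤ) - 1, 2 * (κ : ℤ) + 2 - j) ∈ S := by
    intro j
    induction j with
    | zero =>
      intro _
      exact mem_tr (st2 1 le_rfl (by omega)) rfl (by simp) (by push_cast; omega)
    | succ j ih =>
      intro hj
      have h4 := ih (by omega)
      obtain ⟨⟨s, t, b⟩, he, hi, hc⟩ := hhit (2 * κ + 1 - j) (by omega) (by omega) (by omega)
      have h1 := hS _ he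
      have h5 := hind.two he h4
      have h7 := hind.two he
        (hinn (-2) (j + 1) (2 * κ + 1 - j) (mkF (by omega))
          (by simp only [Inn]; omega) (by omega))
      have h2 : s = -1 ∧ t = j ∧ b = 2 * κ + 1 - j := by
        simp only [InF, TA, Inn, colL] at *
        push_cast at *
        split_ifs at hc <;> omega
      obtain ⟨rfl, rfl, rfl⟩ := h2
      exact mem_tr he rfl (by push_cast; omega) (by push_cast; omega)
  have h5k := st5 κ le_rfl
  have h51 := st1 1 le_rfl (by omega)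
  have h5i := hinn (-2) κ (κ + 2) (mkF (by omega)) (by simp only [Inn]; omega) (by omega)
  have hgm : ((-1 : ℤ), (κ : ℤ), (κ : ℤ)) ∈ S := by
    obtain ⟨⟨s, t, b⟩, he, hi, hc⟩ := hhit (-1) (by omega) (by omega) (by omega)
    have h1 := hS _ he
    have h2 := hind.two he h5k
    have h3 := hind.two he h51
    have h4 := hind.two he h5i
    have h6 : s = -1 ∧ t = κ ∧ b = κ := by
      simp only [InF, TA, Inn, colL] at *
      split_ifs at hc <;> omega
    obtain ⟨rfl, rfl, rfl⟩ := h6
    exact he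
  have hgp : ((0 : ℤ), (κ : ℤ), (κ : ℤ) + 1) ∈ S := by
    obtain ⟨⟨s, t, b⟩, he, hi, hc⟩ := hhit (κ + 1) (by omega) (by omega) (by omega)
    have h1 := hS _ he
    have h2 := hind.two he h5k
    have h3 := hind.two he hgm
    have h4 := hind.two he h5i
    have h6 : s = 0 ∧ t = κ ∧ b = κ + 1 := by
      simp only [InF, TA, Inn, colL] at *
      push_cast at *
      split_ifs at hc <;> omega
    obtain ⟨rfl, rfl, rfl⟩ := h6
    exact he
  refine ⟨?_, hgm, hgp⟩
  intro s t b he hl hs hg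
  by_cases hi : Inn (s, t, b)
  · exact hinn s t b he hi hl
  · simp only [InF, Inn] at he hi
    push_cast at he
    by_cases c1 : s = -1
    · have := st5 (t + 1).toNat (by omega)
      exact mem_tr this c1 (by omega) (by omega)
    by_cases c2 : t = s
    · exact mem_tr (st2 (-s) (by omega) (by omega)) (by omega) (by omega) (by omega)
    by_cases c3 : t = s + 1
    · exact mem_tr (st4 (-s - 1) (by omega) (by omega)) (by omega) (by omega) (by omega)
    by_cases c4 : t = b
    · exact mem_tr (st1 (b - κ) (by omega) (by omega)) (by omega) (by omega) (by omega)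
    · exact mem_tr (st3 (b - κ - 1) (by omega) (by omega)) (by omega) (by omega) (by omega)

/-- The extremal families of the layer with even sides. -/
theorem lay_unique (μ κ : ℕ) (hμ : 1 ≤ μ) (S : Finset (ℤ × ℤ × ℤ))
    (hL : LayOK (2 * μ + 2 * κ) (2 * μ) S)
    (hcard : (2 * μ + 2 * κ + 1) * (2 * μ + 1) + 1 ≤ 2 * S.card) :
    Forced κ (2 * μ + 2 * κ) (2 * μ) S := by
  obtain ⟨μ, rfl⟩ := Nat.exists_eq_add_of_le' hμ
  obtain ⟨hS, hind⟩ := hL
  let S1 := S.filter (fun e => ¬ Inn e)
  let S2 := S.filter (fun e => Inn e)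
  have hsum : S.card = S1.card + S2.card := by
    rw [add_comm]
    exact (Finset.card_filter_add_card_filter_not (s := S) (fun e => Inn e)).symm
  have c1 : ∀ e ∈ S1, colL e ∈ (Finset.Icc (-((2 * (μ + 1) : ℕ) : ℤ))
      ((2 * (μ + 1) + 2 * κ : ℕ) : ℤ)).erase 0 := by
    intro e he
    rw [Finset.mem_filter] at he
    exact colL_mem (hS e he.1).1 (hS e he.1).2.1 (hS e he.1).2.2 he.2
  have c2 : ∀ e ∈ S1, ∀ f ∈ S1, colL e = colL f → e = f := by
    intro e he f hf hc
    rw [Finset.mem_filter] at he hf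
    have := colL_inj (hS e he.1).1 (hS f hf.1).1 (hS e he.1).2.1 (hS e he.1).2.2
      (hS f hf.1).2.1 (hS f hf.1).2.2 he.2 hf.2 hc (hind e he.1 f hf.1)
      (hind f hf.1 e he.1)
    exact Prod.ext this.1 (Prod.ext this.2.1 this.2.2)
  have hA : ((Finset.Icc (-((2 * (μ + 1) : ℕ) : ℤ))
      ((2 * (μ + 1) + 2 * κ : ℕ) : ℤ)).erase 0).card = 4 * μ + 4 + 2 * κ := by
    rw [Finset.card_erase_of_mem (by rw [Finset.mem_Icc]; omega), Int.card_Icc]
    omega
  have h1 : S1.card ≤ 4 * μ + 4 + 2 * κ := by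
    rw [← hA]
    exact card_le_of_col S1 colL _ c1 c2
  have hS2 : ∀ e ∈ S2.image sh, InF (2 * μ + 2 * κ : ℕ) (2 * μ : ℕ) e := by
    intro e he
    rw [Finset.mem_image] at he
    obtain ⟨f, hf, rfl⟩ := he
    rw [Finset.mem_filter] at hf
    have h3 := (hS f hf.1).1
    have h4 := hf.2
    obtain ⟨s, t, b⟩ := f
    simp only [InF, Inn, sh] at *
    push_cast at *
    omega
  have hind2 : TInd 2 (S2.image sh) := by
    intro e he f hf
    rw [Finset.mem_image] at he hf
    obtain ⟨e, he, rfl⟩ := he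
    obtain ⟨f, hf, rfl⟩ := hf
    rw [Finset.mem_filter] at he hf
    have h3 := hind e he.1 f hf.1
    obtain ⟨s, t, b⟩ := e
    obtain ⟨s', t', b'⟩ := f
    simp only [TA, sh] at *
    omega
  have hc2 : (S2.image sh).card = S2.card := Finset.card_image_of_injective _ sh_inj
  have h2 := full_bound (2 * μ) (2 * μ + 2 * κ) (by omega) (S2.image sh) hS2 hind2
  rw [hc2] at h2
  have e1 : (2 * (μ + 1) + 2 * κ + 1) * (2 * (μ + 1) + 1) + 1 =
    (2 * μ + 2 * κ + 1) * (2 * μ + 1) + 1 + 2 * (4 * μ + 4 + 2 * κ) := by ring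
  rw [e1] at hcard
  have ih2 := full_unique μ κ (S2.image sh) hS2 hind2 (by rw [hc2]; omega)
  refine lay_shell (μ + 1) κ (by omega) S hS hind ?_ ?_
  · intro s t b he hi hl
    have h3 := ih2 (s + 2) t (b - 2) (by
      simp only [InF, Inn] at *
      push_cast at *
      omega) (by omega)
    rw [Finset.mem_image] at h3
    obtain ⟨⟨s', t', b'⟩, hf, h4⟩ := h3
    simp only [sh, Prod.mk.injEq] at h4
    rw [Finset.mem_filter] at hf
    exact mem_tr hf.1 (by omega) (by omega) (by omega)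
  · intro c hc1 hc2' hc3
    have h3 := hit_of_card S1 colL _ c1 c2 (by rw [hA]; omega) c (by
      rw [Finset.mem_erase, Finset.mem_Icc]
      push_cast at *
      omega)
    obtain ⟨e, he, hce⟩ := h3
    rw [Finset.mem_filter] at he
    exact ⟨e, he.1, he.2, hce⟩

end Pool.Agent.H688.TS
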