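import Mathlib
import Pool.Agent.H688.TS.Uniq

/-!
# The neighbours of an extremal layer
-/

set_option autoImplicit false
set_option maxHeartbeats 4000000

namespace Pool.Agent.H688.TS

/-- the relation between the triple `e` of a layer and the triple `f` of the next layer -/
def XA (e f : ℤ × ℤ × ℤ) : Prop :=
  (e.2.1 ≤ -1 ∧ e.2.1 ≤ f.2.1 - 1 ∧ e.1 ≤ f.1 - 1 ∧ e.2.2 ≤ f.2.2 + 1 ∧
    ((f.2.1 + 1 < e.2.2 ∧ 1 < e.2.2) ∨ f.1 - 1 < e.2.1)) ∨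
  (1 ≤ e.2.1 ∧ f.2.1 + 1 ≤ e.2.1 ∧ f.1 - 1 ≤ e.1 ∧ f.2.2 + 1 ≤ e.2.2 ∧
    (e.2.1 < f.2.2 + 1 ∨ (e.1 < f.2.1 - 1 ∧ e.1 < -1)))

/-- independence across two layers -/
def XInd (T T' : Finset (ℤ × ℤ × ℤ)) : Prop := ∀ e ∈ T, ∀ f ∈ T', ¬ XA e f

/-- the elements of the outer neighbour that survive -/
def AL (κ : ℤ) (e : ℤ × ℤ × ℤ) : Prop :=
  ¬ (e.1 = 0 ∧ κ + 1 ≤ e.2.1) ∧ ¬ (e.2.2 ≤ 1 ∧ e.1 < e.2.1 ∧ e.2.1 < 0) ∧
  ¬ (e.1 = -1 ∧ 1 ≤ e.2.1 ∧ e.2.1 < e.2.2 ∧ 2 * κ + 3 ≤ e.2.1 + e.2.2) ∧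
  ¬ (e.1 = -2 ∧ κ + 1 ≤ e.2.1) ∧
  ¬ (e.1 ≤ -2 ∧ 2 ≤ e.2.2 ∧ e.2.2 ≤ 2 * κ + 2 ∧ e.2.1 ≤ e.1 + 1)

lemma outer_allowed (μ κ : ℕ) (T T' : Finset (ℤ × ℤ × ℤ)) (hμ : 1 ≤ μ)
    (hT : LayOK (2 * μ + 2 * κ + 1) (2 * μ + 1) T) (hF : Forced κ (2 * μ + 2 * κ) (2 * μ) T')
    (hX : XInd T T') : ∀ e ∈ T, AL κ e := by
  rintro ⟨s, t, b⟩ he
  obtain ⟨h1, h2, h3⟩ := hT.1 _ he
  obtain ⟨hF1, hF2, hF3⟩ := hF
  have x2 := hX _ he _ hF2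
  have x3 := hX _ he _ hF3
  have x1 : ∀ s' t' b' : ℤ, InF (2 * μ + 2 * κ : ℕ) (2 * μ : ℕ) (s', t', b') →
      s' + t' + b' = 2 * κ → s' ≤ -1 → ¬ (s' = -1 ∧ t' = κ ∧ b' = κ + 1) →
      ¬ XA (s, t, b) (s', t', b') := fun s' t' b' a1 a2 a3 a4 => hX _ he _ (hF1 s' t' b' a1 a2 a3 a4)
  clear hF1 hF2 hF3 hX
  simp only [InF, XA] at *
  refine ⟨?_, ?_, ?_, ?_, ?_⟩
  · rintro ⟨r1, r2⟩
    dsimp only at r1 r2
    by_cases q1 : t = κ + 1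
    · omega
    by_cases q2 : t ≤ 2 * κ + 2
    · have := x1 (-1) (2 * κ + 1 - t) t (by omega) (by omega) (by omega) (by omega)
      omega
    · have := x1 ((2 * κ - t) / 2) (2 * κ - t - (2 * κ - t) / 2) t (by omega) (by omega)
        (by omega) (by omega)
      omega
  · rintro ⟨r1, r2, r3⟩
    dsimp only at r1 r2 r3
    by_cases q1 : t = -1
    · omega
    · have := x1 t 0 (2 * κ - t) (by omega) (by omega) (by omega) (by omega)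
      omega
  · rintro ⟨r1, r2, r3, r4⟩
    dsimp only at r1 r2 r3 r4
    by_cases q1 : b = κ + 2
    · omega
    by_cases q2 : b ≤ 2 * κ + 3
    · have := x1 (-1) (2 * κ + 2 - b) (b - 1) (by omega) (by omega) (by omega) (by omega)
      omega
    · have := x1 ((2 * κ - b + 1) / 2) (2 * κ - b + 1 - (2 * κ - b + 1) / 2) (b - 1) (by omega)
        (by omega) (by omega) (by omega)
      omega
  · rintro ⟨r1, r2⟩
    dsimp only at r1 r2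
    omega
  · rintro ⟨r1, r2, r3, r4⟩
    dsimp only at r1 r2 r3 r4
    by_cases q1 : 1 ≤ κ
    · have := x1 (-1) 0 (2 * κ + 1) (by omega) (by omega) (by omega) (by omega)
      omega
    · omega

/-- the colours of the outer neighbour -/
def colA (κ : ℤ) (e : ℤ × ℤ × ℤ) : ℤ :=
  if e.1 = 0 then κ + 1 + e.2.1
  else if e.2.2 = 0 then 0
  else if e.2.2 = 1 ∧ e.2.1 = e.1 then -1
  else if e.1 = -1 then
    (if e.2.1 = -1 then (if e.2.2 ≤ 2 * κ + 2 then -1 else e.2.2)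
    else if e.2.1 = e.2.2 then (if e.2.2 ≤ κ then e.2.2 else if e.2.2 ≤ 2 * κ then
      2 * κ + 1 - e.2.2 else 0)
    else if e.2.1 = 0 then (if e.2.2 ≤ 2 * κ + 1 then 0 else if e.2.2 = 2 * κ + 2 then -1 else
      e.2.2)
    else if e.2.1 + e.2.2 ≤ 2 * κ + 1 then e.2.1 else e.2.1 - 1)
  else if e.2.1 < 0 then e.2.2
  else if e.1 = -2 then (if e.2.2 ≤ κ then e.2.2 else 2 * κ + 1)
  else e.1

lemma colA_mem {n m κ : ℤ} {e : ℤ × ℤ × ℤ} (he : InF n m e) (hnm : n = m + 2 * κ) (hκ : 0 ≤ κ)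
    (hm : 3 ≤ m)
    (he3 : ¬ (e.2.1 = e.1 ∧ e.2.2 = 0)) (he4 : ¬ (e.1 = 0 ∧ e.2.1 = e.2.2))
    (he2 : ¬ Inn e) (ha : AL κ e) :
    colA κ e ∈ ((Finset.Icc (-m) n).erase (-2)).erase (2 * κ + 2) := by
  obtain ⟨s, t, b⟩ := e
  simp only [InF, Inn, colA, AL, Finset.mem_erase, Finset.mem_Icc] at *
  split_ifs <;> omega

/-- description of the colour classes -/
def DA (κ c s t b : ℤ) : Prop :=
  (c ≤ -3 ∧ s = c ∧ 1 ≤ b ∧ 0 ≤ t ∧ b - 1 ≤ t ∧ t ≤ b) ∨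
  (c = -1 ∧ ((s ≤ -1 ∧ b = 1 ∧ t = s) ∨ (s = -1 ∧ t = -1 ∧ 1 ≤ b ∧ b ≤ 2 * κ + 2) ∨
    (s = -1 ∧ t = 0 ∧ b = 2 * κ + 2))) ∨
  (c = 0 ∧ ((s ≤ -1 ∧ t = 0 ∧ b = 0) ∨ (s = -1 ∧ t = b ∧ 2 * κ + 1 ≤ b) ∨
    (s = -1 ∧ t = 0 ∧ 1 ≤ b ∧ b ≤ 2 * κ + 1) ∨ (s = -1 ∧ t = 1 ∧ b = 2 * κ + 1 ∧ 1 < b))) ∨
  ((1 ≤ c ∧ c ≤ κ) ∧ ((s = -1 ∧ t = b ∧ b = c) ∨ (s = -1 ∧ t = b ∧ b = 2 * κ + 1 - c) ∨
    (s = -1 ∧ t = c ∧ c < b ∧ b ≤ 2 * κ + 1 - c) ∨ (s = -1 ∧ t = c + 1 ∧ b = 2 * κ + 1 - c) ∨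
    (s = -2 ∧ b = c ∧ b - 1 ≤ t ∧ t ≤ b))) ∨
  ((κ + 1 ≤ c ∧ c ≤ 2 * κ + 1) ∧ ((s = 0 ∧ t = c - κ - 1 ∧ t < b) ∨
    (s = -2 ∧ b = κ + 1 ∧ t = κ ∧ c = 2 * κ + 1))) ∨
  (2 * κ + 3 ≤ c ∧ b = c ∧ ((s = -1 ∧ -1 ≤ t ∧ t ≤ 0) ∨ (s ≤ -2 ∧ s ≤ t ∧ t ≤ s + 1 ∧ t ≤ -1)))

lemma colA_desc {n m κ : ℤ} {s t b : ℤ} (he : InF n m (s, t, b)) (hκ : 0 ≤ κ)
    (he3 : ¬ (t = s ∧ b = 0)) (he4 : ¬ (s = 0 ∧ t = b))
    (he2 : ¬ Inn (s, t, b)) (ha : AL κ (s, t, b)) : DA κ (colA κ (s, t, b)) s t b := by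
  obtain ⟨a1, a2, a3, a4, a5⟩ := ha
  obtain ⟨-, e2, e3, -, e5, e6⟩ := he
  dsimp only [Inn, colA] at *
  unfold DA
  split_ifs with p1 p2 p3 p4 p5 p6 p7 p8 p9 p10 p11 p12 p13 p14 p15 p16
  · clear he2 a2 a3 a4 a5
    exact Or.inr (Or.inr (Or.inr (Or.inr (Or.inl ⟨by omega, Or.inl (by omega)⟩))))
  · clear he2 a1 a3 a4 a5
    exact Or.inr (Or.inr (Or.inl ⟨by omega, Or.inl (by omega)⟩))
  · clear he2 a1 a3 a4 a5 a2
    exact Or.inr (Or.inl ⟨by omega, Or.inl (by omega)⟩)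
  · clear he2 a1 a3 a4 a5 a2
    exact Or.inr (Or.inl ⟨by omega, Or.inr (Or.inl (by omega))⟩)
  · clear he2 a1 a3 a4 a5 a2
    exact Or.inr (Or.inr (Or.inr (Or.inr (Or.inr ⟨by omega, by omega, Or.inl (by omega)⟩))))
  · clear he2 a1 a3 a4 a5 a2
    exact Or.inr (Or.inr (Or.inr (Or.inl ⟨by omega, Or.inl (by omega)⟩)))
  · clear he2 a1 a3 a4 a5 a2
    exact Or.inr (Or.inr (Or.inr (Or.inl ⟨by omega, Or.inr (Or.inl (by omega))⟩)))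
  · clear he2 a1 a3 a4 a5 a2
    exact Or.inr (Or.inr (Or.inl ⟨by omega, Or.inr (Or.inl (by omega))⟩))
  · clear he2 a1 a3 a4 a5 a2
    exact Or.inr (Or.inr (Or.inl ⟨by omega, Or.inr (Or.inr (Or.inl (by omega)))⟩))
  · clear he2 a1 a3 a4 a5 a2
    exact Or.inr (Or.inl ⟨by omega, Or.inr (Or.inr (by omega))⟩)
  · clear he2 a1 a3 a4 a5 a2
    exact Or.inr (Or.inr (Or.inr (Or.inr (Or.inr ⟨by omega, by omega, Or.inl (by omega)⟩))))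
  · clear he2 a1 a3 a4 a5 a2
    exact Or.inr (Or.inr (Or.inr (Or.inl ⟨by omega, Or.inr (Or.inr (Or.inl (by omega)))⟩)))
  · clear he2 a1 a4 a5 a2
    have q1 : 1 ≤ t := by clear a3; omega
    have q2 : t + b = 2 * κ + 2 := by
      by_contra h
      exact a3 ⟨p4, q1, by omega, by omega⟩
    clear a3
    by_cases q3 : t = 1
    · exact Or.inr (Or.inr (Or.inl ⟨by omega, Or.inr (Or.inr (Or.inr (by omega)))⟩))
    · exact Or.inr (Or.inr (Or.inr (Or.inl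
        ⟨by omega, Or.inr (Or.inr (Or.inr (Or.inl (by omega))))⟩)))
  · have q0 : s ≤ -2 := by clear a1 a2 a3 a4 a5 he2; omega
    have q1 : 2 ≤ b := by
      by_contra h
      exact a2 ⟨by clear a1 a2 a3 a4 a5 he2; omega, by clear a1 a2 a3 a4 a5 he2; omega,
        by clear a1 a2 a3 a4 a5 he2; omega⟩
    have q2 : t ≤ s + 1 := by
      by_contra h
      exact he2 ⟨by clear a1 a2 a3 a4 a5 he2; omega, by clear a1 a2 a3 a4 a5 he2; omega,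
        by clear a1 a2 a3 a4 a5 he2; omega, by clear a1 a2 a3 a4 a5 he2; omega⟩
    have q3 : 2 * κ + 3 ≤ b := by
      by_contra h
      exact a5 ⟨by clear a1 a2 a3 a4 a5 he2; omega, by clear a1 a2 a3 a4 a5 he2; omega,
        by clear a1 a2 a3 a4 a5 he2; omega, by clear a1 a2 a3 a4 a5 he2; omega⟩
    clear he2 a1 a3 a4 a5 a2
    exact Or.inr (Or.inr (Or.inr (Or.inr (Or.inr ⟨by omega, by omega, Or.inr (by omega)⟩))))
  · have q2 : b ≤ t + 1 := by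
      by_contra h
      exact he2 ⟨by clear a1 a2 a3 a4 a5 he2; omega, by clear a1 a2 a3 a4 a5 he2; omega,
        by clear a1 a2 a3 a4 a5 he2; omega, by clear a1 a2 a3 a4 a5 he2; omega⟩
    clear he2 a1 a3 a4 a5 a2
    exact Or.inr (Or.inr (Or.inr (Or.inl
      ⟨by omega, Or.inr (Or.inr (Or.inr (Or.inr (by omega))))⟩)))
  · have q2 : b ≤ t + 1 := by
      by_contra h
      exact he2 ⟨by clear a1 a2 a3 a4 a5 he2; omega, by clear a1 a2 a3 a4 a5 he2; omega,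
        by clear a1 a2 a3 a4 a5 he2; omega, by clear a1 a2 a3 a4 a5 he2; omega⟩
    clear he2 a1 a3 a5 a2
    exact Or.inr (Or.inr (Or.inr (Or.inr (Or.inl ⟨by omega, Or.inr (by omega)⟩))))
  · have q2 : b ≤ t + 1 := by
      by_contra h
      exact he2 ⟨by clear a1 a2 a3 a4 a5 he2; omega, by clear a1 a2 a3 a4 a5 he2; omega,
        by clear a1 a2 a3 a4 a5 he2; omega, by clear a1 a2 a3 a4 a5 he2; omega⟩
    clear he2 a1 a3 a4 a5 a2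
    exact Or.inl ⟨by omega, by omega⟩

lemma DA_cmp {κ c s t b s' t' b' : ℤ} (hκ : 0 ≤ κ) (h1 : DA κ c s t b) (h2 : DA κ c s' t' b')
    (h4 : s + t + b ≤ s' + t' + b') :
    s ≤ s' ∧ t ≤ t' ∧ b ≤ b' ∧ ((t' < b ∧ 0 < b) ∨ (s' < t ∧ s' < 0)) := by
  unfold DA at h1 h2
  rcases h1 with ⟨c1, h1⟩ | ⟨c1, h1⟩ | ⟨c1, h1⟩ | ⟨c1, h1⟩ | ⟨c1, h1⟩ | ⟨c1, h1⟩ <;>
  rcases h2 with ⟨c2, h2⟩ | ⟨c2, h2⟩ | ⟨c2, h2⟩ | ⟨c2, h2⟩ | ⟨c2, h2⟩ | ⟨c2, h2⟩ <;>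
  first
    | (exfalso; clear h1 h2 h4; omega)
    | skip
  · refine ⟨?_, ?_, ?_, ?_⟩ <;> omega
  · rcases h1 with h1 | h1 | h1 <;> rcases h2 with h2 | h2 | h2 <;>
    refine ⟨?_, ?_, ?_, ?_⟩ <;> omega
  · rcases h1 with h1 | h1 | h1 | h1 <;> rcases h2 with h2 | h2 | h2 | h2 <;>
    refine ⟨?_, ?_, ?_, ?_⟩ <;> omega
  · rcases h1 with h1 | h1 | h1 | h1 | h1 <;> rcases h2 with h2 | h2 | h2 | h2 | h2 <;>
    refine ⟨?_, ?_, ?_, ?_⟩ <;> omega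
  · rcases h1 with h1 | h1 <;> rcases h2 with h2 | h2 <;>
    refine ⟨?_, ?_, ?_, ?_⟩ <;> omega
  · rcases h1 with ⟨h0, h1 | h1⟩ <;> rcases h2 with ⟨h0', h2 | h2⟩ <;>
    refine ⟨?_, ?_, ?_, ?_⟩ <;> omega

/-- the outer neighbour of an extremal layer is not extremal -/
theorem outer_bound (μ κ : ℕ) (T T' : Finset (ℤ × ℤ × ℤ)) (hμ : 1 ≤ μ)
    (hT : LayOK (2 * μ + 2 * κ + 1) (2 * μ + 1) T) (hF : Forced κ (2 * μ + 2 * κ) (2 * μ) T')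
    (hX : XInd T T') : 2 * T.card + 2 ≤ (2 * μ + 2 * κ + 2) * (2 * μ + 2) := by
  have hA := outer_allowed μ κ T T' hμ hT hF hX
  obtain ⟨hS, hind⟩ := hT
  obtain ⟨μ, rfl⟩ := Nat.exists_eq_add_of_le' hμ
  let S1 := T.filter (fun e => ¬ Inn e)
  let S2 := T.filter (fun e => Inn e)
  have hsum : T.card = S1.card + S2.card := by
    rw [add_comm]
    exact (Finset.card_filter_add_card_filter_not (s := T) (fun e => Inn e)).symm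
  have h1 : S1.card ≤ (((Finset.Icc (-((2 * (μ + 1) + 1 : ℕ) : ℤ))
      ((2 * (μ + 1) + 2 * κ + 1 : ℕ) : ℤ)).erase (-2)).erase (2 * κ + 2)).card := by
    refine card_le_of_col S1 (colA κ) _ ?_ ?_
    · intro e he
      rw [Finset.mem_filter] at he
      exact colA_mem (hS e he.1).1 (by push_cast; ring) (by omega) (by push_cast; omega)
        (hS e he.1).2.1 (hS e he.1).2.2 he.2 (hA e he.1)
    · intro e he f hf hc
      rw [Finset.mem_filter] at he hf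
      obtain ⟨s, t, b⟩ := e
      obtain ⟨s', t', b'⟩ := f
      have d1 := colA_desc (hS _ he.1).1 (by omega) (hS _ he.1).2.1 (hS _ he.1).2.2 he.2
        (hA _ he.1)
      have d2 := colA_desc (hS _ hf.1).1 (by omega) (hS _ hf.1).2.1 (hS _ hf.1).2.2 hf.2
        (hA _ hf.1)
      rw [← hc] at d2
      rcases le_total (s + t + b) (s' + t' + b') with h4 | h4
      · obtain ⟨g1, g2, g3, g4⟩ := DA_cmp (by omega) d1 d2 h4
        have := hind _ he.1 _ hf.1 ⟨g1, g2, g3, by simpa using g4⟩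
        exact Prod.ext this.1 (Prod.ext this.2.1 this.2.2)
      · obtain ⟨g1, g2, g3, g4⟩ := DA_cmp (by omega) d2 d1 h4
        have := hind _ hf.1 _ he.1 ⟨g1, g2, g3, by simpa using g4⟩
        exact (Prod.ext this.1 (Prod.ext this.2.1 this.2.2)).symm
  rw [Finset.card_erase_of_mem (by rw [Finset.mem_erase, Finset.mem_Icc]; omega),
    Finset.card_erase_of_mem (by rw [Finset.mem_Icc]; omega), Int.card_Icc] at h1
  have h2 := full_bound (2 * μ + 1) (2 * μ + 2 * κ + 1) (by omega) (S2.image sh) ?_ ?_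
  · rw [Finset.card_image_of_injective _ sh_inj] at h2
    have e1 : (2 * μ + 2 * κ + 1 + 1) * (2 * μ + 1 + 1) + 1 = 4 * ((μ + κ + 1) * (μ + 1)) + 1 := by
      ring
    have e2 : (2 * (μ + 1) + 2 * κ + 2) * (2 * (μ + 1) + 2) =
      4 * ((μ + κ + 1) * (μ + 1)) + (8 * μ + 4 * κ + 12) := by ring
    rw [e1] at h2
    rw [e2]
    generalize (μ + κ + 1) * (μ + 1) = X at *
    omega
  · intro e he
    rw [Finset.mem_image] at he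
    obtain ⟨f, hf, rfl⟩ := he
    rw [Finset.mem_filter] at hf
    have h3 := (hS f hf.1).1
    have h4 := hf.2
    obtain ⟨s, t, b⟩ := f
    simp only [InF, Inn, sh] at *
    push_cast at *
    omega
  · intro e he f hf
    rw [Finset.mem_image] at he hf
    obtain ⟨e, he, rfl⟩ := he
    obtain ⟨f, hf, rfl⟩ := hf
    rw [Finset.mem_filter] at he hf
    have h3 := hind e he.1 f hf.1
    obtain ⟨s, t, b⟩ := e
    obtain ⟨s', t', b'⟩ := f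
    simp only [TA, sh] at *
    omega

end Pool.Agent.H688.TS
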