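import Mathlib
import Pool.Agent.H688.TS.Nbr

/-!
# The inner neighbour of an extremal layer
-/

set_option autoImplicit false
set_option maxHeartbeats 4000000

namespace Pool.Agent.H688.TS

/-- the elements of the inner neighbour that survive -/
def AR (κ s t b : ℤ) : Prop :=
  ¬ (2 * κ + 1 ≤ s + b ∧ 2 * κ + 1 ≤ s + t + b) ∧ ¬ (s + b ≤ 2 * κ - 1 ∧ s + t + b ≤ 2 * κ - 1)

lemma inner_allowed (ν κ : ℕ) (T T' : Finset (ℤ × ℤ × ℤ))
    (hT : LayOK (2 * ν + 1 + 2 * κ) (2 * ν + 1) T')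
    (hF : Forced κ (2 * ν + 2 + 2 * κ) (2 * ν + 2) T)
    (hX : XInd T T') : ∀ s t b : ℤ, (s, t, b) ∈ T' → AR κ s t b := by
  intro s t b he
  obtain ⟨h1, h2, h3⟩ := hT.1 _ he
  obtain ⟨hF1, hF2, hF3⟩ := hF
  have x2 := hX _ hF2 _ he
  have x3 := hX _ hF3 _ he
  have x1 : ∀ s' t' b' : ℤ, InF (2 * ν + 2 + 2 * κ : ℕ) (2 * ν + 2 : ℕ) (s', t', b') →
      s' + t' + b' = 2 * κ → s' ≤ -1 → ¬ (s' = -1 ∧ t' = κ ∧ b' = κ + 1) →
      ¬ XA (s', t', b') (s, t, b) := fun s' t' b' a1 a2 a3 a4 => hX _ (hF1 s' t' b' a1 a2 a3 a4) _ he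
  clear hF1 hF2 hF3 hX
  simp only [InF, XA] at *
  refine ⟨?_, ?_⟩
  · rintro ⟨r1, r2⟩
    clear x2 x3
    by_cases q1 : t = b
    · have := x1 (s - 1) (-1) (2 * κ - s + 2) (by omega) (by omega) (by omega) (by omega)
      omega
    by_cases q2 : s - 1 ≤ 2 * κ - s - b
    · have := x1 (s - 1) (2 * κ - s - b) (b + 1) (by omega) (by omega) (by omega) (by omega)
      omega
    · have := x1 ((2 * κ - b - 1) / 2) (2 * κ - b - 1 - (2 * κ - b - 1) / 2) (b + 1) (by omega)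
        (by omega) (by omega) (by omega)
      omega
  · rintro ⟨r1, r2⟩
    by_cases q1 : s = 0
    · by_cases q2 : t = κ - 1
      · clear x1 x2
        omega
      · clear x2 x3
        have := x1 (-1) (t + 1) (2 * κ - t) (by omega) (by omega) (by omega) (by omega)
        omega
    clear x2 x3
    by_cases q2 : t = s
    · have := x1 (s - 1) 1 (2 * κ - s) (by omega) (by omega) (by omega) (by omega)
      omega
    by_cases q3 : 2 * κ - s - b ≤ b + 1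
    · have := x1 (s - 1) (2 * κ - s - b) (b + 1) (by omega) (by omega) (by omega) (by omega)
      omega
    · have := x1 (s - 1) ((2 * κ - s + 1) / 2) (2 * κ - s + 1 - (2 * κ - s + 1) / 2) (by omega)
        (by omega) (by omega) (by omega)
      omega

/-- the lines -/
noncomputable def LL (κ ν : ℤ) : Finset (ℤ × ℤ) :=
  ((Finset.Icc (-(2 * ν + 1)) 0) ×ˢ (Finset.Icc 0 (2 * ν + 1 + 2 * κ))).filter
    (fun z => 2 * z.1 + z.2 ≤ 2 * κ ∧ 2 * κ ≤ z.1 + 2 * z.2)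

lemma mem_LL {κ ν s b : ℤ} : (s, b) ∈ LL κ ν ↔ (-(2 * ν + 1) ≤ s ∧ s ≤ 0 ∧ 0 ≤ b ∧
    b ≤ 2 * ν + 1 + 2 * κ) ∧ 2 * s + b ≤ 2 * κ ∧ 2 * κ ≤ s + 2 * b := by
  simp only [LL, Finset.mem_filter, Finset.mem_product, Finset.mem_Icc]
  tauto

/-- an injection from the lines to the other lines -/
def lm (κ : ℤ) (z : ℤ × ℤ) : ℤ × ℤ :=
  if z.1 + z.2 < 2 * κ then (z.1, z.2 - κ - (1 - z.1) / 2)
  else if z.1 + z.2 = 2 * κ ∧ z.1 % 2 = 0 then (z.1 - 1, κ - z.1 / 2)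
  else (z.1 + (z.2 - 2 * κ + 1) / 2, z.2)

lemma LL_card (κ ν : ℕ) : 2 * (LL κ ν).card ≤ (2 * ν + 2) * (2 * ν + 2 + 2 * κ) := by
  classical
  have hinj : Set.InjOn (lm κ) (LL κ ν : Set (ℤ × ℤ)) := by
    rintro ⟨s, b⟩ h1 ⟨s', b'⟩ h2 h
    rw [Finset.mem_coe, mem_LL] at h1 h2
    simp only [lm] at h
    rw [Prod.mk.injEq]
    split_ifs at h <;> simp only [Prod.mk.injEq] at h <;> omega
  have hdis : Disjoint (LL κ ν) ((LL κ ν).image (lm κ)) := by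
    rw [Finset.disjoint_left]
    rintro ⟨s, b⟩ h1 h2
    rw [Finset.mem_image] at h2
    obtain ⟨⟨s', b'⟩, h2, h⟩ := h2
    rw [mem_LL] at h1 h2
    simp only [lm] at h
    split_ifs at h <;> simp only [Prod.mk.injEq] at h <;> omega
  have hsub : (LL κ ν) ∪ ((LL κ ν).image (lm κ)) ⊆
      (Finset.Icc (-(2 * (ν : ℤ) + 1)) 0) ×ˢ (Finset.Icc (0 : ℤ) (2 * ν + 1 + 2 * κ)) := by
    rintro ⟨s, b⟩ h
    rw [Finset.mem_union, Finset.mem_image] at h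
    rw [Finset.mem_product, Finset.mem_Icc, Finset.mem_Icc]
    rcases h with h | ⟨⟨s', b'⟩, h2, h⟩
    · rw [mem_LL] at h
      dsimp only
      omega
    · rw [mem_LL] at h2
      simp only [lm] at h
      dsimp only
      split_ifs at h <;> simp only [Prod.mk.injEq] at h <;> omega
  have h1 := Finset.card_le_card hsub
  rw [Finset.card_union_of_disjoint hdis, Finset.card_image_of_injOn hinj, Finset.card_product,
    Int.card_Icc, Int.card_Icc] at h1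
  have e1 : (0 + 1 - -(2 * (ν : ℤ) + 1)).toNat = 2 * ν + 2 := by omega
  have e2 : (2 * (ν : ℤ) + 1 + 2 * κ + 1 - 0).toNat = 2 * ν + 2 + 2 * κ := by omega
  rw [e1, e2] at h1
  omega

/-- the colours of the inner neighbour -/
def colC (κ ν : ℤ) (e : ℤ × ℤ × ℤ) : ℤ × ℤ :=
  if e.1 + e.2.2 = 2 * κ ∧ e.2.1 = e.2.2 ∧ -(2 * ν + 1) < e.1 then (e.1 - 1, e.2.2)
  else if e.1 + e.2.2 = 2 * κ ∧ e.2.1 = e.1 ∧ e.1 = -(2 * ν + 1) then (e.1 + 1, e.2.2)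
  else (e.1, e.2.2)

lemma colC_inj {n m κ ν s t b s' t' b' : ℤ} (he : InF n m (s, t, b)) (hf : InF n m (s', t', b'))
    (_he3 : ¬ (t = s ∧ b = 0)) (he4 : ¬ (s = 0 ∧ t = b))
    (hf3 : ¬ (t' = s' ∧ b' = 0)) (hf4 : ¬ (s' = 0 ∧ t' = b'))
    (ha : AR κ s t b) (hb : AR κ s' t' b') (hm : m = 2 * ν + 1) (hn : n = 2 * ν + 1 + 2 * κ)
    (hν : 1 ≤ ν) (hκ : 0 ≤ κ)
    (hc : colC κ ν (s, t, b) = colC κ ν (s', t', b')) (hle : t ≤ t' )
    (h1 : TA 0 (s, t, b) (s', t', b') → s = s' ∧ t = t' ∧ b = b')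
    (h2 : TA 0 (s', t', b') (s, t, b) → s = s' ∧ t = t' ∧ b = b') :
    s = s' ∧ t = t' ∧ b = b' := by
  simp only [InF, TA, colC, AR] at *
  split_ifs at hc <;> simp only [Prod.mk.injEq] at hc <;> omega

lemma colC_mem {κ ν s t b : ℤ} (he : InF (2 * ν + 1 + 2 * κ) (2 * ν + 1) (s, t, b))
    (_he3 : ¬ (t = s ∧ b = 0)) (he4 : ¬ (s = 0 ∧ t = b))
    (ha : AR κ s t b) (hν : 1 ≤ ν) (hκ : 0 ≤ κ) :
    colC κ ν (s, t, b) ∈ (LL κ ν).erase (0, κ) := by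
  simp only [InF, AR] at *
  rw [Finset.mem_erase]
  unfold colC
  dsimp only
  split_ifs <;> rw [mem_LL, ne_eq, Prod.mk.injEq] <;> omega

/-- the elements of the inner neighbour between two extremal layers -/
lemma colC_ne {κ ν s t b : ℤ} (he : InF (2 * ν + 1 + 2 * κ) (2 * ν + 1) (s, t, b))
    (ha : AR κ s t b) (hν : 1 ≤ ν) (hκ : 0 ≤ κ)
    (h1 : ¬ XA (s, t, b) (-1, κ, κ)) (h2 : ¬ XA (s, t, b) (0, κ, κ + 1)) :
    colC κ ν (s, t, b) ≠ (if κ = 0 then (-1, 2) else (-2, κ + 1)) := by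
  simp only [InF, AR, XA] at *
  unfold colC
  dsimp only
  split_ifs <;> rw [ne_eq, Prod.mk.injEq] <;> omega

lemma inner_card (ν κ : ℕ) (T' : Finset (ℤ × ℤ × ℤ)) (hν : 1 ≤ ν)
    (hT : LayOK (2 * ν + 1 + 2 * κ) (2 * ν + 1) T')
    (hA : ∀ s t b : ℤ, (s, t, b) ∈ T' → AR κ s t b) (A : Finset (ℤ × ℤ))
    (h : ∀ e ∈ T', colC κ ν e ∈ A) : T'.card ≤ A.card := by
  obtain ⟨hS, hind⟩ := hT
  refine Finset.card_le_card_of_injOn (colC κ ν) h ?_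
  rintro ⟨s, t, b⟩ he ⟨s', t', b'⟩ hf hc
  rw [Finset.mem_coe] at he hf
  obtain ⟨a1, a2, a3⟩ := hS _ he
  obtain ⟨b1, b2, b3⟩ := hS _ hf
  have h3 := hind.two he hf
  rcases le_total t t' with h4 | h4
  · have := colC_inj a1 b1 a2 a3 b2 b3 (hA _ _ _ he) (hA _ _ _ hf) (by push_cast; ring)
      (by push_cast; ring) (by omega) (by omega) hc h4 h3.1 h3.2
    exact Prod.ext this.1 (Prod.ext this.2.1 this.2.2)
  · have h3' := hind.two hf he
    have := colC_inj b1 a1 b2 b3 a2 a3 (hA _ _ _ hf) (hA _ _ _ he) (by push_cast; ring)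
      (by push_cast; ring) (by omega) (by omega) hc.symm h4 h3'.1 h3'.2
    exact (Prod.ext this.1 (Prod.ext this.2.1 this.2.2)).symm

/-- the inner neighbour of an extremal layer is not extremal -/
theorem inner_bound (ν κ : ℕ) (T T' : Finset (ℤ × ℤ × ℤ)) (hν : 1 ≤ ν)
    (hT : LayOK (2 * ν + 1 + 2 * κ) (2 * ν + 1) T')
    (hF : Forced κ (2 * ν + 2 + 2 * κ) (2 * ν + 2) T)
    (hX : XInd T T') : 2 * T'.card + 2 ≤ (2 * ν + 2) * (2 * ν + 2 + 2 * κ) := by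
  have hA := inner_allowed ν κ T T' hT hF hX
  have h1 := inner_card ν κ T' hν hT hA ((LL κ ν).erase (0, (κ : ℤ))) ?_
  · have h2 := LL_card κ ν
    have h3 : ((0 : ℤ), (κ : ℤ)) ∈ LL κ ν := by rw [mem_LL]; omega
    have h4 := Finset.card_pos.2 ⟨_, h3⟩
    rw [Finset.card_erase_of_mem h3] at h1
    omega
  · rintro ⟨s, t, b⟩ he
    obtain ⟨a1, a2, a3⟩ := hT.1 _ he
    exact colC_mem (by simpa using a1) a2 a3 (hA _ _ _ he) (by omega) (by omega)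

/-- the layer between two extremal layers -/
theorem inner_bound2 (ν κ : ℕ) (T T' T'' : Finset (ℤ × ℤ × ℤ)) (hν : 1 ≤ ν)
    (hT : LayOK (2 * ν + 1 + 2 * κ) (2 * ν + 1) T')
    (hF : Forced κ (2 * ν + 2 + 2 * κ) (2 * ν + 2) T)
    (hX : XInd T T') (hF2 : Forced κ (2 * ν + 2 * κ) (2 * ν) T'') (hX2 : XInd T' T'') :
    2 * T'.card + 4 ≤ (2 * ν + 2) * (2 * ν + 2 + 2 * κ) := by
  have hA := inner_allowed ν κ T T' hT hF hX
  obtain ⟨-, g1, g2⟩ := hF2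
  have h1 := inner_card ν κ T' hν hT hA (((LL κ ν).erase (0, (κ : ℤ))).erase
    (if (κ : ℤ) = 0 then (-1, 2) else (-2, (κ : ℤ) + 1))) ?_
  · have h2 := LL_card κ ν
    have h3 : ((0 : ℤ), (κ : ℤ)) ∈ LL κ ν := by rw [mem_LL]; omega
    have h4 : (if (κ : ℤ) = 0 then ((-1 : ℤ), (2 : ℤ)) else (-2, (κ : ℤ) + 1)) ∈
        (LL κ ν).erase (0, (κ : ℤ)) := by
      rw [Finset.mem_erase]
      split_ifs <;> rw [mem_LL, ne_eq, Prod.mk.injEq] <;> omega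
    have h5 := Finset.card_pos.2 ⟨_, h4⟩
    rw [Finset.card_erase_of_mem h4] at h1
    rw [Finset.card_erase_of_mem h3] at h1 h5
    omega
  · rintro ⟨s, t, b⟩ he
    obtain ⟨a1, a2, a3⟩ := hT.1 _ he
    rw [Finset.mem_erase]
    refine ⟨colC_ne (by simpa using a1) (hA _ _ _ he) (by omega) (by omega)
      (hX2 _ he _ g1) (hX2 _ he _ g2), ?_⟩
    exact colC_mem (by simpa using a1) a2 a3 (hA _ _ _ he) (by omega) (by omega)

end Pool.Agent.H688.TS
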