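import Mathlib
import Pool.Agent.H688.TS.Grid
import Pool.Agent.H688.TS.Nbr2

/-!
# Compatible families of intervals in a grid: the upper bound when `n + m` is even
-/

set_option autoImplicit false
set_option maxHeartbeats 4000000

namespace Pool.Agent.H688.TS

lemma layT (n m : ℕ) (a0 x0 : ℤ) (S : Finset (ℤ × ℤ × ℤ × ℤ))
    (hS : ∀ e ∈ S, InG a0 x0 n m e) (hL : ∀ e ∈ S, Lay a0 x0 m e) (hind : QInd S) :
    LayOK n m (S.image (lc a0 x0 m)) ∧ (S.image (lc a0 x0 m)).card = S.card := by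
  have hinj : Set.InjOn (lc a0 x0 m) (S : Set (ℤ × ℤ × ℤ × ℤ)) := by
    intro e he f hf h
    have h1 := hS e he
    have h2 := hS f hf
    have h3 := hL e he
    have h4 := hL f hf
    obtain ⟨a, x, b, y⟩ := e
    obtain ⟨a', x', b', y'⟩ := f
    simp only [lc, InG, Lay, Prod.mk.injEq] at *
    omega
  refine ⟨⟨?_, ?_⟩, Finset.card_image_of_injOn hinj⟩
  · intro e he
    rw [Finset.mem_image] at he
    obtain ⟨e, he, rfl⟩ := he
    have h1 := hS e he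
    have h3 := hL e he
    obtain ⟨a, x, b, y⟩ := e
    simp only [lc, InG, Lay, InF] at *
    omega
  · intro e he f hf
    rw [Finset.mem_image] at he hf
    obtain ⟨e, he, rfl⟩ := he
    obtain ⟨f, hf, rfl⟩ := hf
    have h0 := hind e he f hf
    have h1 := hS e he
    have h2 := hS f hf
    have h3 := hL e he
    have h4 := hL f hf
    obtain ⟨a, x, b, y⟩ := e
    obtain ⟨a', x', b', y'⟩ := f
    simp only [lc, InG, Lay, TA, QA] at *
    omega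

lemma peel (n m : ℕ) (a0 x0 : ℤ) (S : Finset (ℤ × ℤ × ℤ × ℤ))
    (hS : ∀ e ∈ S, InG a0 x0 (n + 1 : ℕ) (m + 1 : ℕ) e) :
    ∃ A B : Finset (ℤ × ℤ × ℤ × ℤ), A ⊆ S ∧ B ⊆ S ∧ S.card = A.card + B.card ∧
      (∀ e ∈ A, Lay a0 x0 (m + 1 : ℕ) e) ∧ (∀ e ∈ A, InG a0 x0 (n + 1 : ℕ) (m + 1 : ℕ) e) ∧
      (∀ e ∈ B, InG (a0 + 1) x0 n m e) := by
  refine ⟨S.filter (fun e => Lay a0 x0 ((m + 1 : ℕ) : ℤ) e),
    S.filter (fun e => ¬ Lay a0 x0 ((m + 1 : ℕ) : ℤ) e), Finset.filter_subset _ _,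
    Finset.filter_subset _ _, (Finset.card_filter_add_card_filter_not (s := S) _).symm,
    fun e he => (Finset.mem_filter.1 he).2, fun e he => hS e (Finset.mem_filter.1 he).1, ?_⟩
  intro e he
  rw [Finset.mem_filter] at he
  have h3 := hS e he.1
  have h4 := he.2
  obtain ⟨a, x, b, y⟩ := e
  simp only [InG, Lay] at *
  omega

lemma layX (n m : ℕ) (a0 x0 : ℤ) (S A B : Finset (ℤ × ℤ × ℤ × ℤ)) (hind : QInd S) (hA : A ⊆ S)
    (hB : B ⊆ S) (h1 : ∀ e ∈ A, InG a0 x0 (n + 1 : ℕ) (m + 1 : ℕ) e)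
    (h2 : ∀ e ∈ A, Lay a0 x0 (m + 1 : ℕ) e) (h3 : ∀ e ∈ B, InG (a0 + 1) x0 n m e)
    (h4 : ∀ e ∈ B, Lay (a0 + 1) x0 m e) :
    XInd (A.image (lc a0 x0 (m + 1 : ℕ))) (B.image (lc (a0 + 1) x0 m)) := by
  intro e he f hf
  rw [Finset.mem_image] at he hf
  obtain ⟨e, he, rfl⟩ := he
  obtain ⟨f, hf, rfl⟩ := hf
  have g1 := h1 e he
  have g2 := h2 e he
  have g3 := h3 f hf
  have g4 := h4 f hf
  have g5 := hind e (hA he) f (hB hf)
  have g6 := hind f (hB hf) e (hA he)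
  obtain ⟨a, x, b, y⟩ := e
  obtain ⟨a', x', b', y'⟩ := f
  simp only [lc, InG, Lay, XA, QA] at *
  clear h1 h2 h3 h4
  omega

lemma forced_of (n m κ : ℕ) (hm : 2 ≤ m) (hme : m % 2 = 0) (hn : n = m + 2 * κ)
    (T : Finset (ℤ × ℤ × ℤ)) (hT : LayOK n m T) (hc : (n + 1) * (m + 1) + 1 ≤ 2 * T.card) :
    Forced κ n m T := by
  obtain ⟨μ, rfl⟩ : ∃ μ, m = 2 * μ := ⟨m / 2, by omega⟩
  subst hn
  exact lay_unique μ κ (by omega) T hT hc

lemma layer_le (n m : ℕ) (hm : 1 ≤ m) (hmn : m ≤ n) (T : Finset (ℤ × ℤ × ℤ)) (hT : LayOK n m T) :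
    2 * T.card ≤ (n + 1) * (m + 1) + 1 :=
  layer_bound m n hm hmn T hT.1 hT.2

lemma outer_bound' (n m κ : ℕ) (hm : 2 ≤ m) (hme : m % 2 = 0) (hn : n = m + 2 * κ)
    (T T' : Finset (ℤ × ℤ × ℤ)) (hT : LayOK (n + 1) (m + 1) T) (hF : Forced κ n m T')
    (hX : XInd T T') : 2 * T.card + 2 ≤ (n + 2) * (m + 2) := by
  obtain ⟨μ, rfl⟩ : ∃ μ, m = 2 * μ := ⟨m / 2, by omega⟩
  subst hn
  exact outer_bound μ κ T T' (by omega) hT hF hX

lemma inner_bound' (n m κ : ℕ) (hm : 3 ≤ m) (hme : m % 2 = 1) (hn : n = m + 2 * κ)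
    (T T' : Finset (ℤ × ℤ × ℤ)) (hT : LayOK n m T') (hF : Forced κ (n + 1) (m + 1) T)
    (hX : XInd T T') : 2 * T'.card + 2 ≤ (n + 1) * (m + 1) := by
  obtain ⟨ν, rfl⟩ : ∃ ν, m = 2 * ν + 1 := ⟨m / 2, by omega⟩
  subst hn
  have e1 : 2 * ν + 1 + 2 * κ + 1 = 2 * ν + 2 + 2 * κ := by ring
  have e2 : 2 * ν + 1 + 1 = 2 * ν + 2 := by ring
  rw [e1, e2] at hF ⊢
  rw [mul_comm (2 * ν + 2 + 2 * κ)]
  exact inner_bound ν κ T T' (by omega) hT hF hX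

lemma inner_bound2' (n m κ : ℕ) (hm : 2 ≤ m) (hme : m % 2 = 0) (hn : n = m + 2 * κ)
    (T T' T'' : Finset (ℤ × ℤ × ℤ)) (hT : LayOK (n + 1) (m + 1) T')
    (hF : Forced κ (n + 1 + 1) (m + 1 + 1) T)
    (hX : XInd T T') (hF2 : Forced κ n m T'') (hX2 : XInd T' T'') :
    2 * T'.card + 4 ≤ (n + 2) * (m + 2) := by
  obtain ⟨ν, rfl⟩ : ∃ ν, m = 2 * ν := ⟨m / 2, by omega⟩
  subst hn
  have e1 : 2 * ν + 2 * κ + 1 + 1 = 2 * ν + 2 + 2 * κ := by ring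
  have e2 : 2 * ν + 1 + 1 = 2 * ν + 2 := by ring
  have e3 : 2 * ν + 2 * κ + 1 = 2 * ν + 1 + 2 * κ := by ring
  have e4 : 2 * ν + 2 * κ + 2 = 2 * ν + 2 + 2 * κ := by ring
  rw [e1, e2] at hF
  rw [e3] at hT
  rw [e4, mul_comm (2 * ν + 2 + 2 * κ)]
  exact inner_bound2 ν κ T T' T'' (by omega) hT hF hX hF2 hX2

/-- two consecutive layers, the second one with even sides -/
lemma two_odd (n m κ : ℕ) (hm : 2 ≤ m) (hme : m % 2 = 0) (hn : n = m + 2 * κ)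
    (T T' : Finset (ℤ × ℤ × ℤ)) (hT : LayOK (n + 1) (m + 1) T) (hT' : LayOK n m T')
    (hX : XInd T T') : T.card + T'.card + 1 ≤ ((n + 2) * (m + 2) + 1) / 2 +
      ((n + 1) * (m + 1) + 1) / 2 := by
  have h1 := layer_le (n + 1) (m + 1) (by omega) (by omega) T hT
  have h2 := layer_le n m (by omega) (by omega) T' hT'
  have e1 : (n + 1 + 1) * (m + 1 + 1) = (n + 2) * (m + 2) := by ring
  rw [e1] at h1
  by_cases hc : (n + 1) * (m + 1) + 1 ≤ 2 * T'.card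
  · have h3 := outer_bound' n m κ hm hme hn T T' hT (forced_of n m κ hm hme hn T' hT' hc) hX
    omega
  · have h3 : ((n + 1) * (m + 1)) % 2 = 1 := by
      rw [Nat.mul_mod, show (n + 1) % 2 = 1 by omega, show (m + 1) % 2 = 1 by omega]
    omega

/-- two consecutive layers, the first one with even sides -/
lemma two_even (n m κ : ℕ) (hm : 3 ≤ m) (hme : m % 2 = 1) (hn : n = m + 2 * κ)
    (T T' : Finset (ℤ × ℤ × ℤ)) (hT : LayOK (n + 1) (m + 1) T) (hT' : LayOK n m T')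
    (hX : XInd T T') : T.card + T'.card + 1 ≤ ((n + 2) * (m + 2) + 1) / 2 +
      ((n + 1) * (m + 1) + 1) / 2 := by
  have h1 := layer_le (n + 1) (m + 1) (by omega) (by omega) T hT
  have h2 := layer_le n m (by omega) (by omega) T' hT'
  have e1 : (n + 1 + 1) * (m + 1 + 1) = (n + 2) * (m + 2) := by ring
  rw [e1] at h1
  by_cases hc : (n + 2) * (m + 2) + 1 ≤ 2 * T.card
  · have h3 := inner_bound' n m κ hm hme hn T T' hT'
      (forced_of (n + 1) (m + 1) κ (by omega) (by omega) (by omega) T hT (by rw [e1]; exact hc)) hX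
    omega
  · have h3 : ((n + 2) * (m + 2)) % 2 = 1 := by
      rw [Nat.mul_mod, show (n + 2) % 2 = 1 by omega, show (m + 2) % 2 = 1 by omega]
    omega

/-- three consecutive layers, the first and the last one with even sides -/
lemma three_even (n m κ : ℕ) (hm : 2 ≤ m) (hme : m % 2 = 0) (hn : n = m + 2 * κ)
    (T T' T'' : Finset (ℤ × ℤ × ℤ)) (hT : LayOK (n + 2) (m + 2) T)
    (hT' : LayOK (n + 1) (m + 1) T') (hT'' : LayOK n m T'')
    (hX : XInd T T') (hX2 : XInd T' T'') : T.card + T'.card + T''.card + 2 ≤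
      ((n + 3) * (m + 3) + 1) / 2 + ((n + 2) * (m + 2) + 1) / 2 + ((n + 1) * (m + 1) + 1) / 2 := by
  have h1 := layer_le (n + 2) (m + 2) (by omega) (by omega) T hT
  have h2 := layer_le (n + 1) (m + 1) (by omega) (by omega) T' hT'
  have h3 := layer_le n m (by omega) (by omega) T'' hT''
  have e1 : (n + 1 + 1) * (m + 1 + 1) = (n + 2) * (m + 2) := by ring
  have e2 : (n + 2 + 1) * (m + 2 + 1) = (n + 3) * (m + 3) := by ring
  rw [e1] at h2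
  rw [e2] at h1
  have p1 : ((n + 3) * (m + 3)) % 2 = 1 := by
    rw [Nat.mul_mod, show (n + 3) % 2 = 1 by omega, show (m + 3) % 2 = 1 by omega]
  have p3 : ((n + 1) * (m + 1)) % 2 = 1 := by
    rw [Nat.mul_mod, show (n + 1) % 2 = 1 by omega, show (m + 1) % 2 = 1 by omega]
  by_cases hc : (n + 3) * (m + 3) + 1 ≤ 2 * T.card
  · have f1 := forced_of (n + 2) (m + 2) κ (by omega) (by omega) (by omega) T hT
      (by rw [e2]; exact hc)
    by_cases hc2 : (n + 1) * (m + 1) + 1 ≤ 2 * T''.card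
    · have f2 := forced_of n m κ hm hme hn T'' hT'' hc2
      have h4 := inner_bound2' n m κ hm hme hn T T' T'' hT' f1 hX f2 hX2
      omega
    · have h4 := inner_bound' (n + 1) (m + 1) κ (by omega) (by omega) (by omega) T T' hT' f1 hX
      rw [e1] at h4
      omega
  · by_cases hc2 : (n + 1) * (m + 1) + 1 ≤ 2 * T''.card
    · have f2 := forced_of n m κ hm hme hn T'' hT'' hc2
      have h4 := outer_bound' n m κ hm hme hn T' T'' hT' f2 hX2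
      omega
    · omega

/-- the bound for odd `m` -/
theorem bound_odd : ∀ (j κ : ℕ) (a0 x0 : ℤ) (S : Finset (ℤ × ℤ × ℤ × ℤ)),
    (∀ e ∈ S, InG a0 x0 (2 * j + 1 + 2 * κ : ℕ) (2 * j + 1 : ℕ) e) → QInd S →
    S.card + j ≤ BB (2 * j + 1 + 2 * κ) (2 * j + 1) := by
  intro j
  induction j with
  | zero =>
    intro κ a0 x0 S hS hind
    exact grid_bound 1 (2 * 0 + 1 + 2 * κ) le_rfl (by omega) a0 x0 S hS hind
  | succ j ih =>
    intro κ a0 x0 S hS hind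
    have e1 : 2 * (j + 1) + 1 + 2 * κ = 2 * j + 1 + 2 * κ + 1 + 1 := by ring
    have e2 : 2 * (j + 1) + 1 = 2 * j + 1 + 1 + 1 := by ring
    rw [e1, e2] at hS ⊢
    obtain ⟨A, B, a1, a2, a3, a4, a5, a6⟩ := peel _ _ a0 x0 S hS
    obtain ⟨A', B', b1, b2, b3, b4, b5, b6⟩ := peel _ _ (a0 + 1) x0 B a6
    have i1 := ih κ (a0 + 1 + 1) x0 B' b6 (hind.mono (b2.trans a2))
    have t1 := layT _ _ a0 x0 A a5 a4 (hind.mono a1)
    have t2 := layT _ _ (a0 + 1) x0 A' b5 b4 (hind.mono (b1.trans a2))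
    have hx := layX _ _ a0 x0 S A A' hind a1 (b1.trans a2) a5 a4 b5 b4
    have h3 := two_odd (2 * j + 1 + 2 * κ + 1) (2 * j + 1 + 1) κ (by omega) (by omega) (by omega)
      _ _ t1.1 t2.1 hx
    rw [t1.2, t2.2] at h3
    have e3 : BB (2 * j + 1 + 2 * κ + 1 + 1) (2 * j + 1 + 1 + 1) =
      ((2 * j + 1 + 2 * κ + 1 + 2) * (2 * j + 1 + 1 + 2) + 1) / 2 +
      (((2 * j + 1 + 2 * κ + 1 + 1) * (2 * j + 1 + 1 + 1) + 1) / 2 +
        BB (2 * j + 1 + 2 * κ) (2 * j + 1)) := by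
      have q1 : 2 * j + 1 + 1 + 1 = (2 * j + 1) + 2 := by ring
      have q2 : 2 * j + 1 + 1 = (2 * j) + 2 := by ring
      rw [q1, BB, Nat.add_sub_cancel, q2, BB, Nat.add_sub_cancel]
    rw [e3]
    omega

/-- the bound for even `m` -/
theorem bound_even : ∀ (j κ : ℕ) (a0 x0 : ℤ) (S : Finset (ℤ × ℤ × ℤ × ℤ)),
    (∀ e ∈ S, InG a0 x0 (2 * j + 4 + 2 * κ : ℕ) (2 * j + 4 : ℕ) e) → QInd S →
    S.card + (j + 2) ≤ BB (2 * j + 4 + 2 * κ) (2 * j + 4) := by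
  intro j
  induction j with
  | zero =>
    intro κ a0 x0 S hS hind
    have e1 : 2 * 0 + 4 + 2 * κ = 1 + 2 * κ + 1 + 1 + 1 := by ring
    have e2 : 2 * 0 + 4 = 1 + 1 + 1 + 1 := by ring
    rw [e1, e2] at hS ⊢
    obtain ⟨A, B, a1, a2, a3, a4, a5, a6⟩ := peel _ _ a0 x0 S hS
    obtain ⟨A', B', b1, b2, b3, b4, b5, b6⟩ := peel _ _ (a0 + 1) x0 B a6
    obtain ⟨A'', B'', c1, c2, c3, c4, c5, c6⟩ := peel _ _ (a0 + 1 + 1) x0 B' b6
    have i1 := grid_bound 1 (1 + 2 * κ) le_rfl (by omega) (a0 + 1 + 1 + 1) x0 B'' c6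
      (hind.mono (c2.trans (b2.trans a2)))
    have t1 := layT _ _ a0 x0 A a5 a4 (hind.mono a1)
    have t2 := layT _ _ (a0 + 1) x0 A' b5 b4 (hind.mono (b1.trans a2))
    have t3 := layT _ _ (a0 + 1 + 1) x0 A'' c5 c4 (hind.mono (c1.trans (b2.trans a2)))
    have hx := layX _ _ a0 x0 S A A' hind a1 (b1.trans a2) a5 a4 b5 b4
    have hx2 := layX _ _ (a0 + 1) x0 S A' A'' hind (b1.trans a2) (c1.trans (b2.trans a2))
      b5 b4 c5 c4
    have h3 := three_even (1 + 2 * κ + 1) (1 + 1) κ (by omega) (by omega) (by omega)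
      _ _ _ t1.1 t2.1 t3.1 hx hx2
    rw [t1.2, t2.2, t3.2] at h3
    have e3 : BB (1 + 2 * κ + 1 + 1 + 1) (1 + 1 + 1 + 1) =
      ((1 + 2 * κ + 1 + 3) * (1 + 1 + 3) + 1) / 2 +
      (((1 + 2 * κ + 1 + 2) * (1 + 1 + 2) + 1) / 2 +
      (((1 + 2 * κ + 1 + 1) * (1 + 1 + 1) + 1) / 2 + BB (1 + 2 * κ) 1)) := rfl
    rw [e3]
    omega
  | succ j ih =>
    intro κ a0 x0 S hS hind
    have e1 : 2 * (j + 1) + 4 + 2 * κ = 2 * j + 4 + 2 * κ + 1 + 1 := by ring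
    have e2 : 2 * (j + 1) + 4 = 2 * j + 4 + 1 + 1 := by ring
    rw [e1, e2] at hS ⊢
    obtain ⟨A, B, a1, a2, a3, a4, a5, a6⟩ := peel _ _ a0 x0 S hS
    obtain ⟨A', B', b1, b2, b3, b4, b5, b6⟩ := peel _ _ (a0 + 1) x0 B a6
    have i1 := ih κ (a0 + 1 + 1) x0 B' b6 (hind.mono (b2.trans a2))
    have t1 := layT _ _ a0 x0 A a5 a4 (hind.mono a1)
    have t2 := layT _ _ (a0 + 1) x0 A' b5 b4 (hind.mono (b1.trans a2))
    have hx := layX _ _ a0 x0 S A A' hind a1 (b1.trans a2) a5 a4 b5 b4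
    have h3 := two_even (2 * j + 4 + 2 * κ + 1) (2 * j + 4 + 1) κ (by omega) (by omega) (by omega)
      _ _ t1.1 t2.1 hx
    rw [t1.2, t2.2] at h3
    have e3 : BB (2 * j + 4 + 2 * κ + 1 + 1) (2 * j + 4 + 1 + 1) =
      ((2 * j + 4 + 2 * κ + 1 + 2) * (2 * j + 4 + 1 + 2) + 1) / 2 +
      (((2 * j + 4 + 2 * κ + 1 + 1) * (2 * j + 4 + 1 + 1) + 1) / 2 +
        BB (2 * j + 4 + 2 * κ) (2 * j + 4)) := by
      have q1 : 2 * j + 4 + 1 + 1 = (2 * j + 4) + 2 := by ring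
      have q2 : 2 * j + 4 + 1 = (2 * j + 3) + 2 := by ring
      have q3 : 2 * j + 3 + 1 = 2 * j + 4 := by ring
      rw [q1, BB, Nat.add_sub_cancel, q2, BB, Nat.add_sub_cancel, q3]
    rw [e3]
    omega

end Pool.Agent.H688.TS
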