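import Mathlib
import Pool.Agent.H688.TS.Grid

/-!
# Compatible families of intervals in a grid: the lower bound
-/

set_option autoImplicit false
set_option maxHeartbeats 4000000

namespace Pool.Agent.H688.TS

/-- number of elements with `u = m - |v|` -/
def ff (d u : ℕ) : ℕ := (u / 2 + 1) * ((d + u) / 2 + 1)

/-- element of the middle rank with `v ≥ 0` -/
def ep (n m : ℕ) (z : ℕ × ℕ × ℕ) : ℤ × ℤ × ℤ × ℤ :=
  ((z.2.1 : ℤ) + (m - z.1), (z.2.2 : ℤ), (n : ℤ) - z.2.1, (z.1 : ℤ) - z.2.2)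

/-- element of the middle rank with `v ≤ 0` -/
def en (n m : ℕ) (z : ℕ × ℕ × ℕ) : ℤ × ℤ × ℤ × ℤ :=
  ((z.2.1 : ℤ), (z.2.2 : ℤ) + (m - z.1), (n : ℤ) - z.2.1 - (m - z.1), (m : ℤ) - z.2.2)

/-- index set -/
def idx (d m : ℕ) : Finset (ℕ × ℕ × ℕ) :=
  (Finset.range m).biUnion (fun u =>
    ({u} : Finset ℕ) ×ˢ (Finset.range ((d + u) / 2 + 1) ×ˢ Finset.range (u / 2 + 1)))

lemma mem_idx {d m : ℕ} {z : ℕ × ℕ × ℕ} :
    z ∈ idx d m ↔ z.1 < m ∧ z.2.1 ≤ (d + z.1) / 2 ∧ z.2.2 ≤ z.1 / 2 := by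
  obtain ⟨u, j, i⟩ := z
  simp only [idx, Finset.mem_biUnion, Finset.mem_range, Finset.mem_product, Finset.mem_singleton]
  constructor
  · rintro ⟨w, hw, rfl, h1, h2⟩
    exact ⟨hw, by omega, by omega⟩
  · rintro ⟨h1, h2, h3⟩
    exact ⟨u, h1, rfl, by omega, by omega⟩

lemma card_idx (d m : ℕ) : (idx d m).card = ∑ u ∈ Finset.range m, ff d u := by
  rw [idx, Finset.card_biUnion]
  · refine Finset.sum_congr rfl ?_
    intro u _
    rw [Finset.card_product, Finset.card_singleton, Finset.card_product, Finset.card_range,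
      Finset.card_range, ff]
    ring
  · intro u _ w _ huw
    rw [Function.onFun, Finset.disjoint_left]
    rintro ⟨a, b, c⟩ h1 h2
    simp only [Finset.mem_product, Finset.mem_singleton] at h1 h2
    exact huw (h1.1.symm.trans h2.1)

/-- the family of the middle rank -/
def mid (d m : ℕ) : Finset (ℤ × ℤ × ℤ × ℤ) :=
  (idx d (m + 1)).image (ep (d + m) m) ∪ (idx d m).image (en (d + m) m)

lemma card_mid (d m : ℕ) : (mid d m).card =
    ∑ u ∈ Finset.range (m + 1), ff d u + ∑ u ∈ Finset.range m, ff d u := by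
  rw [mid, Finset.card_union_of_disjoint, Finset.card_image_of_injOn,
    Finset.card_image_of_injOn, card_idx, card_idx]
  · rintro ⟨u, j, i⟩ h1 ⟨u', j', i'⟩ h2 h
    simp only [Finset.mem_coe, mem_idx] at h1 h2
    simp only [en, Prod.mk.injEq] at *
    omega
  · rintro ⟨u, j, i⟩ h1 ⟨u', j', i'⟩ h2 h
    simp only [Finset.mem_coe, mem_idx] at h1 h2
    simp only [ep, Prod.mk.injEq] at *
    omega
  · rw [Finset.disjoint_left]
    rintro e h1 h2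
    rw [Finset.mem_image] at h1 h2
    obtain ⟨⟨u, j, i⟩, h1, rfl⟩ := h1
    obtain ⟨⟨u', j', i'⟩, h2, h⟩ := h2
    simp only [mem_idx] at h1 h2
    simp only [ep, en, Prod.mk.injEq] at *
    omega

lemma mid_inG {d m : ℕ} (hd : d % 2 = 1) : ∀ e ∈ mid d m, InG 0 0 ((d + m : ℕ) : ℤ) m e := by
  intro e he
  rw [mid, Finset.mem_union, Finset.mem_image, Finset.mem_image] at he
  rcases he with ⟨⟨u, j, i⟩, h1, rfl⟩ | ⟨⟨u, j, i⟩, h1, rfl⟩ <;>
  simp only [mem_idx] at h1 <;>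
  simp only [ep, en, InG] at * <;> omega

lemma mid_rank {d m : ℕ} : ∀ e ∈ mid d m, e.1 + e.2.1 + e.2.2.1 + e.2.2.2 = (d + m : ℕ) + m := by
  intro e he
  rw [mid, Finset.mem_union, Finset.mem_image, Finset.mem_image] at he
  rcases he with ⟨⟨u, j, i⟩, h1, rfl⟩ | ⟨⟨u, j, i⟩, h1, rfl⟩ <;>
  simp only [mem_idx] at h1 <;>
  simp only [ep, en] at * <;> omega

lemma mid_ind {d m : ℕ} : QInd (mid d m) := by
  intro e he f hf h
  have h1 := mid_rank e he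
  have h2 := mid_rank f hf
  simp only [QA] at h
  omega

lemma sum_ff (e m : ℕ) :
    ∑ u ∈ Finset.range (m + 2), ff (2 * e + 1) u + ∑ u ∈ Finset.range (m + 1), ff (2 * e + 1) u
      = BB (2 * e + 1 + (m + 1)) (m + 1) := by
  induction m with
  | zero =>
    simp only [Finset.sum_range_succ, Finset.sum_range_zero, ff, BB]
    have h1 : (2 * e + 1 + 0) / 2 = e := by omega
    have h2 : (2 * e + 1 + (0 + 1)) / 2 = e + 1 := by omega
    simp only [zero_add] at *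
    rw [h1, h2]
    norm_num
    ring
  | succ m ih =>
    have ha := Finset.sum_range_succ (ff (2 * e + 1)) (m + 2)
    have hb := Finset.sum_range_succ (ff (2 * e + 1)) (m + 1)
    have h1 : 2 * e + 1 + (m + 1 + 1) - 1 = 2 * e + 1 + (m + 1) := by omega
    rw [BB, h1, ← ih]
    have h2 : ff (2 * e + 1) (m + 1 + 1) + ff (2 * e + 1) (m + 1) =
        ((2 * e + 1 + (m + 1 + 1) + 1) * (m + 3) + 1) / 2 := by
      rcases Nat.even_or_odd' m with ⟨k, rfl | rfl⟩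
      · have e1 : (2 * k + 1 + 1) / 2 = k + 1 := by omega
        have e2 : (2 * k + 1) / 2 = k := by omega
        have e3 : (2 * e + 1 + (2 * k + 1 + 1)) / 2 = e + k + 1 := by omega
        have e4 : (2 * e + 1 + (2 * k + 1)) / 2 = e + k + 1 := by omega
        rw [ff, ff, e1, e2, e3, e4]
        have e5 : (2 * e + 1 + (2 * k + 1 + 1) + 1) * (2 * k + 3) + 1 =
            2 * ((e + k + 2) * (2 * k + 3)) + 1 := by ring
        rw [e5]
        have e6 : (2 * ((e + k + 2) * (2 * k + 3)) + 1) / 2 = (e + k + 2) * (2 * k + 3) := by omega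
        rw [e6]
        ring
      · have e1 : (2 * k + 1 + 1 + 1) / 2 = k + 1 := by omega
        have e2 : (2 * k + 1 + 1) / 2 = k + 1 := by omega
        have e3 : (2 * e + 1 + (2 * k + 1 + 1 + 1)) / 2 = e + k + 2 := by omega
        have e4 : (2 * e + 1 + (2 * k + 1 + 1)) / 2 = e + k + 1 := by omega
        rw [ff, ff, e1, e2, e3, e4]
        have e5 : (2 * e + 1 + (2 * k + 1 + 1 + 1) + 1) * (2 * k + 1 + 3) + 1 =
            2 * ((2 * e + 2 * k + 5) * (k + 2)) + 1 := by ring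
        rw [e5]
        have e6 : (2 * ((2 * e + 2 * k + 5) * (k + 2)) + 1) / 2 =
          (2 * e + 2 * k + 5) * (k + 2) := by omega
        rw [e6]
        ring
    rw [← h2, show m + 1 + 2 = m + 2 + 1 from rfl, show m + 1 + 1 = m + 2 from rfl, ha, hb]
    ring

/-! ### Height two -/

/-- the intervals of the family in the grid `2k × 2` -/
def tw (k : ℤ) (r i : ℕ) : ℤ × ℤ × ℤ × ℤ :=
  if r = 0 then (i, 1, 2 * k - i, 1)
  else if r = 1 then (i, 0, 2 * k - i, 2)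
  else if r = 2 then (if (i : ℤ) = k - 1 then (k + 1, 0, k + 1, 1) else (i + 1, 0, 2 * k - i, 1))
  else if r = 3 then (if (i : ℤ) = k - 1 then (k - 1, 1, k - 1, 2) else (i, 1, 2 * k - 1 - i, 2))
  else if r = 4 then (if (i : ℤ) = k - 1 then (k, 0, k + 1, 0) else
    if (i : ℤ) = k - 2 then (k + 1, 0, k + 2, 0) else (i + 2, 0, 2 * k - i, 0))
  else (if (i : ℤ) = k - 1 then (k - 1, 2, k, 2) else
    if (i : ℤ) = k - 2 then (k - 2, 2, k - 1, 2) else (i, 2, 2 * k - 2 - i, 2))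

/-- the index set -/
def twi (k : ℕ) : Finset (ℕ × ℕ) :=
  (Finset.range 6 ×ˢ Finset.range k) ∪ {(1, k)}

lemma mem_twi {k : ℕ} {z : ℕ × ℕ} : z ∈ twi k ↔ (z.1 < 6 ∧ z.2 < k) ∨ (z.1 = 1 ∧ z.2 = k) := by
  obtain ⟨r, i⟩ := z
  simp only [twi, Finset.mem_union, Finset.mem_product, Finset.mem_range, Finset.mem_singleton,
    Prod.mk.injEq]

lemma card_twi (k : ℕ) : (twi k).card = 6 * k + 1 := by
  rw [twi, Finset.card_union_of_disjoint, Finset.card_product, Finset.card_range,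
    Finset.card_range, Finset.card_singleton]
  rw [Finset.disjoint_singleton_right, Finset.mem_product, Finset.mem_range, Finset.mem_range]
  omega

/-- the family -/
def twf (k : ℕ) : Finset (ℤ × ℤ × ℤ × ℤ) := (twi k).image (fun z => tw k z.1 z.2)

lemma tw_inG (k : ℕ) (hk : 1 ≤ k) : ∀ e ∈ twf k, InG 0 0 ((2 * k : ℕ) : ℤ) 2 e := by
  intro e he
  rw [twf, Finset.mem_image] at he
  obtain ⟨⟨r, i⟩, h1, rfl⟩ := he
  rw [mem_twi] at h1
  simp only [InG, tw] at *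
  split_ifs <;> simp only [] <;> omega

lemma tw_inj (k : ℕ) : Set.InjOn (fun z : ℕ × ℕ => tw k z.1 z.2) (twi k) := by
  rintro ⟨r, i⟩ h1 ⟨r', i'⟩ h2 h
  rw [Finset.mem_coe, mem_twi] at h1 h2
  simp only [tw] at h
  rw [Prod.mk.injEq]
  split_ifs at h <;> simp only [Prod.mk.injEq] at h <;> omega

lemma card_twf (k : ℕ) : (twf k).card = 6 * k + 1 := by
  rw [twf, Finset.card_image_of_injOn (tw_inj k), card_twi]

lemma tw_desc (k : ℤ) (r i : ℕ) (h1 : (r < 6 ∧ (i : ℤ) < k) ∨ (r = 1 ∧ (i : ℤ) = k)) :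
    ∃ a x b y : ℤ, tw k r i = (a, x, b, y) ∧
    ((a = i ∧ x = 1 ∧ b = 2 * k - i ∧ y = 1 ∧ (i : ℤ) < k) ∨
     (a = i ∧ x = 0 ∧ b = 2 * k - i ∧ y = 2 ∧ (i : ℤ) ≤ k) ∨
     (a = k + 1 ∧ x = 0 ∧ b = k + 1 ∧ y = 1) ∨
     (a = i + 1 ∧ x = 0 ∧ b = 2 * k - i ∧ y = 1 ∧ (i : ℤ) < k - 1) ∨
     (a = k - 1 ∧ x = 1 ∧ b = k - 1 ∧ y = 2) ∨
     (a = i ∧ x = 1 ∧ b = 2 * k - 1 - i ∧ y = 2 ∧ (i : ℤ) < k - 1) ∨
     (a = k ∧ x = 0 ∧ b = k + 1 ∧ y = 0) ∨
     (a = k + 1 ∧ x = 0 ∧ b = k + 2 ∧ y = 0) ∨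
     (a = i + 2 ∧ x = 0 ∧ b = 2 * k - i ∧ y = 0 ∧ (i : ℤ) < k - 2) ∨
     (a = k - 1 ∧ x = 2 ∧ b = k ∧ y = 2) ∨
     (a = k - 2 ∧ x = 2 ∧ b = k - 1 ∧ y = 2) ∨
     (a = i ∧ x = 2 ∧ b = 2 * k - 2 - i ∧ y = 2 ∧ (i : ℤ) < k - 2)) := by
  unfold tw
  split_ifs <;> refine ⟨_, _, _, _, rfl, ?_⟩ <;>
  first
    | exact Or.inl ⟨rfl, rfl, rfl, rfl, by omega⟩
    | exact Or.inr (Or.inl ⟨rfl, rfl, rfl, rfl, by omega⟩)
    | exact Or.inr (Or.inr (Or.inl ⟨rfl, rfl, rfl, rfl⟩))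
    | exact Or.inr (Or.inr (Or.inr (Or.inl ⟨rfl, rfl, rfl, rfl, by omega⟩)))
    | exact Or.inr (Or.inr (Or.inr (Or.inr (Or.inl ⟨rfl, rfl, rfl, rfl⟩))))
    | exact Or.inr (Or.inr (Or.inr (Or.inr (Or.inr (Or.inl ⟨rfl, rfl, rfl, rfl, by omega⟩)))))
    | exact Or.inr (Or.inr (Or.inr (Or.inr (Or.inr (Or.inr (Or.inl ⟨rfl, rfl, rfl, rfl⟩))))))
    | exact Or.inr (Or.inr (Or.inr (Or.inr (Or.inr (Or.inr (Or.inr (Or.inl ⟨rfl, rfl, rfl, rfl⟩)))))))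
    | exact Or.inr (Or.inr (Or.inr (Or.inr (Or.inr (Or.inr (Or.inr (Or.inr (Or.inl ⟨rfl, rfl, rfl, rfl, by omega⟩))))))))
    | exact Or.inr (Or.inr (Or.inr (Or.inr (Or.inr (Or.inr (Or.inr (Or.inr (Or.inr (Or.inl ⟨rfl, rfl, rfl, rfl⟩)))))))))
    | exact Or.inr (Or.inr (Or.inr (Or.inr (Or.inr (Or.inr (Or.inr (Or.inr (Or.inr (Or.inr (Or.inl ⟨rfl, rfl, rfl, rfl⟩))))))))))
    | exact Or.inr (Or.inr (Or.inr (Or.inr (Or.inr (Or.inr (Or.inr (Or.inr (Or.inr (Or.inr (Or.inr (⟨rfl, rfl, rfl, rfl, by omega⟩)))))))))))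

lemma tw_ind (k : ℕ) : QInd (twf k) := by
  intro e he f hf h
  rw [twf, Finset.mem_image] at he hf
  obtain ⟨⟨r, i⟩, h1, h3⟩ := he
  obtain ⟨⟨r', i'⟩, h2, h4⟩ := hf
  rw [mem_twi] at h1 h2
  obtain ⟨a, x, b, y, h5, h6⟩ := tw_desc k r i (by omega)
  obtain ⟨a', x', b', y', h7, h8⟩ := tw_desc k r' i' (by omega)
  dsimp only at h3 h4
  rw [h5] at h3
  rw [h7] at h4
  subst h3 h4
  dsimp only [QA] at *
  have i0 : (0 : ℤ) ≤ i := Int.natCast_nonneg i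
  have i1 : (0 : ℤ) ≤ i' := Int.natCast_nonneg i'
  clear h1 h2 h5 h7
  rcases h6 with h6 | h6 | h6 | h6 | h6 | h6 | h6 | h6 | h6 | h6 | h6 | h6 <;>
  rcases h8 with h8 | h8 | h8 | h8 | h8 | h8 | h8 | h8 | h8 | h8 | h8 | h8 <;> omega

end Pool.Agent.H688.TS
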