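import Mathlib
import Pool.Agent.H688.TS.Lower

/-!
# Compatible families of intervals in a grid: the lower bound when `n + m` is even
-/

set_option autoImplicit false
set_option maxHeartbeats 4000000

namespace Pool.Agent.H688.TS

/-- element of rank `n + m + 1`, first half -/
def fp (n m : ℕ) (z : ℕ × ℕ × ℕ) : ℤ × ℤ × ℤ × ℤ :=
  ((z.2.1 : ℤ) + (m - z.1) + 1, (z.2.2 : ℤ), (n : ℤ) - z.2.1, (z.1 : ℤ) - z.2.2)

/-- element of rank `n + m + 1`, second half -/
def fn (n m : ℕ) (z : ℕ × ℕ × ℕ) : ℤ × ℤ × ℤ × ℤ :=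
  ((z.2.1 : ℤ), (z.2.2 : ℤ) + 1 + (m - z.1), (n : ℤ) - z.2.1 - (m - z.1), (m : ℤ) - z.2.2)

/-- index set, first half -/
def idp (κ m : ℕ) : Finset (ℕ × ℕ × ℕ) :=
  (Finset.range (m + 1)).biUnion (fun u =>
    ({u} : Finset ℕ) ×ˢ (Finset.range ((2 * κ + u + 1) / 2) ×ˢ Finset.range (u / 2 + 1)))

/-- index set, second half -/
def idn (κ m : ℕ) : Finset (ℕ × ℕ × ℕ) :=
  (Finset.range (m + 1)).biUnion (fun u =>
    ({u} : Finset ℕ) ×ˢ (Finset.range ((2 * κ + u) / 2 + 1) ×ˢ Finset.range ((u + 1) / 2)))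

lemma mem_idp {κ m : ℕ} {z : ℕ × ℕ × ℕ} :
    z ∈ idp κ m ↔ z.1 ≤ m ∧ z.2.1 < (2 * κ + z.1 + 1) / 2 ∧ z.2.2 ≤ z.1 / 2 := by
  obtain ⟨u, j, i⟩ := z
  simp only [idp, Finset.mem_biUnion, Finset.mem_range, Finset.mem_product, Finset.mem_singleton]
  constructor
  · rintro ⟨w, hw, rfl, h1, h2⟩
    exact ⟨by omega, by omega, by omega⟩
  · rintro ⟨h1, h2, h3⟩
    exact ⟨u, by omega, rfl, by omega, by omega⟩

lemma mem_idn {κ m : ℕ} {z : ℕ × ℕ × ℕ} :
    z ∈ idn κ m ↔ z.1 ≤ m ∧ z.2.1 ≤ (2 * κ + z.1) / 2 ∧ z.2.2 < (z.1 + 1) / 2 := by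
  obtain ⟨u, j, i⟩ := z
  simp only [idn, Finset.mem_biUnion, Finset.mem_range, Finset.mem_product, Finset.mem_singleton]
  constructor
  · rintro ⟨w, hw, rfl, h1, h2⟩
    exact ⟨by omega, by omega, by omega⟩
  · rintro ⟨h1, h2, h3⟩
    exact ⟨u, by omega, rfl, by omega, by omega⟩

lemma card_idp (κ m : ℕ) : (idp κ m).card =
    ∑ u ∈ Finset.range (m + 1), ((2 * κ + u + 1) / 2) * (u / 2 + 1) := by
  rw [idp, Finset.card_biUnion]
  · refine Finset.sum_congr rfl ?_
    intro u _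
    rw [Finset.card_product, Finset.card_singleton, Finset.card_product, Finset.card_range,
      Finset.card_range]
    ring
  · intro u _ w _ huw
    rw [Function.onFun, Finset.disjoint_left]
    rintro ⟨a, b, c⟩ h1 h2
    simp only [Finset.mem_product, Finset.mem_singleton] at h1 h2
    exact huw (h1.1.symm.trans h2.1)

lemma card_idn (κ m : ℕ) : (idn κ m).card =
    ∑ u ∈ Finset.range (m + 1), ((2 * κ + u) / 2 + 1) * ((u + 1) / 2) := by
  rw [idn, Finset.card_biUnion]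
  · refine Finset.sum_congr rfl ?_
    intro u _
    rw [Finset.card_product, Finset.card_singleton, Finset.card_product, Finset.card_range,
      Finset.card_range]
    ring
  · intro u _ w _ huw
    rw [Function.onFun, Finset.disjoint_left]
    rintro ⟨a, b, c⟩ h1 h2
    simp only [Finset.mem_product, Finset.mem_singleton] at h1 h2
    exact huw (h1.1.symm.trans h2.1)

/-- the family of rank `n + m + 1` -/
def up (κ m : ℕ) : Finset (ℤ × ℤ × ℤ × ℤ) :=
  (idp κ m).image (fp (2 * κ + m) m) ∪ (idn κ m).image (fn (2 * κ + m) m)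

lemma card_up (κ m : ℕ) : (up κ m).card =
    ∑ u ∈ Finset.range (m + 1), (((2 * κ + u + 1) / 2) * (u / 2 + 1) +
      ((2 * κ + u) / 2 + 1) * ((u + 1) / 2)) := by
  rw [up, Finset.card_union_of_disjoint, Finset.card_image_of_injOn,
    Finset.card_image_of_injOn, card_idp, card_idn, Finset.sum_add_distrib]
  · rintro ⟨u, j, i⟩ h1 ⟨u', j', i'⟩ h2 h
    simp only [Finset.mem_coe, mem_idn] at h1 h2
    simp only [fn, Prod.mk.injEq] at *
    omega
  · rintro ⟨u, j, i⟩ h1 ⟨u', j', i'⟩ h2 h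
    simp only [Finset.mem_coe, mem_idp] at h1 h2
    simp only [fp, Prod.mk.injEq] at *
    omega
  · rw [Finset.disjoint_left]
    rintro e h1 h2
    rw [Finset.mem_image] at h1 h2
    obtain ⟨⟨u, j, i⟩, h1, rfl⟩ := h1
    obtain ⟨⟨u', j', i'⟩, h2, h⟩ := h2
    simp only [mem_idp, mem_idn] at h1 h2
    simp only [fp, fn, Prod.mk.injEq] at *
    omega

lemma up_inG {κ m : ℕ} : ∀ e ∈ up κ m, InG 0 0 ((2 * κ + m : ℕ) : ℤ) m e := by
  intro e he
  rw [up, Finset.mem_union, Finset.mem_image, Finset.mem_image] at he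
  rcases he with ⟨⟨u, j, i⟩, h1, rfl⟩ | ⟨⟨u, j, i⟩, h1, rfl⟩
  · simp only [mem_idp] at h1
    simp only [fp, InG] at *
    omega
  · simp only [mem_idn] at h1
    simp only [fn, InG] at *
    omega

lemma up_rank {κ m : ℕ} : ∀ e ∈ up κ m,
    e.1 + e.2.1 + e.2.2.1 + e.2.2.2 = (2 * κ + m : ℕ) + m + 1 := by
  intro e he
  rw [up, Finset.mem_union, Finset.mem_image, Finset.mem_image] at he
  rcases he with ⟨⟨u, j, i⟩, h1, rfl⟩ | ⟨⟨u, j, i⟩, h1, rfl⟩
  · simp only [mem_idp] at h1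
    simp only [fp] at *
    omega
  · simp only [mem_idn] at h1
    simp only [fn] at *
    omega

lemma up_ind {κ m : ℕ} : QInd (up κ m) := by
  intro e he f hf h
  have h1 := up_rank e he
  have h2 := up_rank f hf
  simp only [QA] at h
  omega

lemma sum_up (κ m : ℕ) :
    ∑ u ∈ Finset.range (m + 2), (((2 * κ + u + 1) / 2) * (u / 2 + 1) +
      ((2 * κ + u) / 2 + 1) * ((u + 1) / 2)) + (m + 1) / 2 = BB (2 * κ + (m + 1)) (m + 1) := by
  induction m with
  | zero =>
    simp only [Finset.sum_range_succ, Finset.sum_range_zero, BB]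
    have h1 : (2 * κ + 0 + 1) / 2 = κ := by omega
    have h2 : (2 * κ + (0 + 1) + 1) / 2 = κ + 1 := by omega
    have h3 : (2 * κ + (0 + 1)) / 2 = κ := by omega
    have h4 : (2 * κ + 0) / 2 = κ := by omega
    simp only [zero_add] at *
    rw [h1, h2, h4]
    norm_num
    ring
  | succ m ih =>
    rw [Finset.sum_range_succ]
    have h1 : 2 * κ + (m + 1 + 1) - 1 = 2 * κ + (m + 1) := by omega
    rw [BB, h1, ← ih]
    rcases Nat.even_or_odd' m with ⟨k, rfl | rfl⟩
    · have e1 : (2 * κ + (2 * k + 2) + 1) / 2 = κ + k + 1 := by omega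
      have e2 : (2 * κ + (2 * k + 2)) / 2 = κ + k + 1 := by omega
      have e3 : (2 * k + 2) / 2 = k + 1 := by omega
      have e4 : (2 * k + 2 + 1) / 2 = k + 1 := by omega
      have e5 : (2 * k + 1 + 1) / 2 = k + 1 := by omega
      have e6 : (2 * k + 1) / 2 = k := by omega
      have e7 : (2 * κ + (2 * k + 1 + 1) + 1) * (2 * k + 3) + 1 =
        2 * ((κ + k + 1) * (k + 2) + (κ + k + 2) * (k + 1) + 1) := by ring
      have e8 : 2 * ((κ + k + 1) * (k + 2) + (κ + k + 2) * (k + 1) + 1) / 2 =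
        (κ + k + 1) * (k + 2) + (κ + k + 2) * (k + 1) + 1 := by omega
      rw [e1, e2, e3, e4, e6, e7, e8]
      ring
    · have e1 : (2 * κ + (2 * k + 1 + 2) + 1) / 2 = κ + k + 2 := by omega
      have e2 : (2 * κ + (2 * k + 1 + 2)) / 2 = κ + k + 1 := by omega
      have e3 : (2 * k + 1 + 2) / 2 = k + 1 := by omega
      have e4 : (2 * k + 1 + 2 + 1) / 2 = k + 2 := by omega
      have e5 : (2 * k + 1 + 1 + 1) / 2 = k + 1 := by omega
      have e6 : (2 * k + 1 + 1) / 2 = k + 1 := by omega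
      have e7 : (2 * κ + (2 * k + 1 + 1 + 1) + 1) * (2 * k + 1 + 3) + 1 =
        2 * (2 * ((κ + k + 2) * (k + 2))) + 1 := by ring
      have e8 : (2 * (2 * ((κ + k + 2) * (k + 2))) + 1) / 2 =
        2 * ((κ + k + 2) * (k + 2)) := by omega
      rw [e1, e2, e3, e4, e6, e7, e8]
      ring

lemma BB_even (κ m : ℕ) : BB (2 * κ + (m + 1)) (m + 1) + (m + 3) ^ 2 / 4 =
    κ * (m + 3).choose 2 + (m + 4).choose 3 + (m + 1) / 2 := by
  induction m with
  | zero =>
    simp only [BB]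
    have h2 : (2 * κ + (0 + 1)) / 2 = κ := by omega
    rw [h2]
    norm_num [Nat.choose]
    ring
  | succ m ih =>
    have h1 : 2 * κ + (m + 1 + 1) - 1 = 2 * κ + (m + 1) := by omega
    rw [BB, h1]
    have h2 : (m + 1 + 3).choose 2 = (m + 3).choose 1 + (m + 3).choose 2 := rfl
    have h3 : (m + 1 + 4).choose 3 = (m + 4).choose 2 + (m + 4).choose 3 := rfl
    rw [h2, h3, Nat.choose_one_right]
    have h4 : 2 * (m + 4).choose 2 = (m + 4) * (m + 3) := by
      have := Nat.choose_two_right (m + 4)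
      have h5 : (m + 4) * (m + 4 - 1) = (m + 4) * (m + 3) := by congr 1
      rw [h5] at this
      have h6 : 2 ∣ (m + 4) * (m + 3) := by
        rw [mul_comm]
        exact (Nat.even_mul_succ_self (m + 3)).two_dvd
      omega
    rcases Nat.even_or_odd' m with ⟨k, rfl | rfl⟩
    · have e1 : (2 * κ + (2 * k + 1 + 1) + 1) * (2 * k + 3) + 1 =
        2 * (κ * (2 * k + 3) + (2 * (k * k) + 6 * k + 5)) := by ring
      have e2 : 2 * (κ * (2 * k + 3) + (2 * (k * k) + 6 * k + 5)) / 2 =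
        κ * (2 * k + 3) + (2 * (k * k) + 6 * k + 5) := by omega
      have e3 : (2 * k + 1 + 3) ^ 2 = 4 * (k * k + 4 * k + 4) := by ring
      have e4 : 4 * (k * k + 4 * k + 4) / 4 = k * k + 4 * k + 4 := by omega
      have e5 : (2 * k + 3) ^ 2 = 4 * (k * k + 3 * k + 2) + 1 := by ring
      have e6 : (4 * (k * k + 3 * k + 2) + 1) / 4 = k * k + 3 * k + 2 := by omega
      have e7 : (2 * k + 4) * (2 * k + 3) = 4 * (k * k) + 14 * k + 12 := by ring
      have e8 : κ * (2 * k + 3 + (2 * k + 3).choose 2) =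
        κ * (2 * k + 3) + κ * (2 * k + 3).choose 2 := by ring
      rw [e7] at h4
      rw [e5, e6] at ih
      rw [e1, e2, e3, e4, e8]
      generalize κ * (2 * k + 3) = X at *
      generalize κ * (2 * k + 3).choose 2 = Y at *
      generalize k * k = Z at *
      omega
    · have e1 : (2 * κ + (2 * k + 1 + 1 + 1) + 1) * (2 * k + 1 + 3) + 1 =
        2 * (κ * (2 * k + 1 + 3) + (2 * (k * k) + 8 * k + 8)) + 1 := by ring
      have e2 : (2 * (κ * (2 * k + 1 + 3) + (2 * (k * k) + 8 * k + 8)) + 1) / 2 =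
        κ * (2 * k + 1 + 3) + (2 * (k * k) + 8 * k + 8) := by omega
      have e3 : (2 * k + 1 + 1 + 3) ^ 2 = 4 * (k * k + 5 * k + 6) + 1 := by ring
      have e4 : (4 * (k * k + 5 * k + 6) + 1) / 4 = k * k + 5 * k + 6 := by omega
      have e5 : (2 * k + 1 + 3) ^ 2 = 4 * (k * k + 4 * k + 4) := by ring
      have e6 : 4 * (k * k + 4 * k + 4) / 4 = k * k + 4 * k + 4 := by omega
      have e7 : (2 * k + 1 + 4) * (2 * k + 1 + 3) = 4 * (k * k) + 18 * k + 20 := by ring
      have e8 : κ * (2 * k + 1 + 3 + (2 * k + 1 + 3).choose 2) =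
        κ * (2 * k + 1 + 3) + κ * (2 * k + 1 + 3).choose 2 := by ring
      rw [e7] at h4
      rw [e5, e6] at ih
      rw [e1, e2, e3, e4, e8]
      generalize κ * (2 * k + 1 + 3) = X at *
      generalize κ * (2 * k + 1 + 3).choose 2 = Y at *
      generalize k * k = Z at *
      omega

end Pool.Agent.H688.TS
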