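import Mathlib
import Pool.Agent.H688.TS.Abs
import Pool.Agent.H688.TS.Lower

/-!
# Transfer systems of groups
-/

set_option autoImplicit false
set_option maxHeartbeats 4000000

namespace Pool.Agent.H688.TS

/-- A transfer system for the group `G`: a partial order on the set of the subgroups of `G` which
refines inclusion and is closed under conjugation and restriction. -/
structure IsTransferSystem {G : Type*} [Group G] (R : Subgroup G → Subgroup G → Prop) : Prop where
  refl : ∀ K, R K K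
  antisymm : ∀ K H, R K H → R H K → K = H
  trans : ∀ K L H, R K L → R L H → R K H
  le : ∀ K H, R K H → K ≤ H
  conj : ∀ K H, R K H → ∀ g : G,
    R (K.map (MulAut.conj g).toMonoidHom) (H.map (MulAut.conj g).toMonoidHom)
  restr : ∀ K H L, R K H → L ≤ H → R (K ⊓ L) L

/-- `S` is a basis of the transfer system `T`: it consists of pairs `(K, H)` with `K < H` and
`K → H` in `T`, and `T` is the smallest transfer system which contains `S`. -/
def IsBasis {G : Type*} [Group G] (S : Set (Subgroup G × Subgroup G))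
    (T : Subgroup G → Subgroup G → Prop) : Prop :=
  (∀ e ∈ S, e.1 < e.2 ∧ T e.1 e.2) ∧
    ∀ R : Subgroup G → Subgroup G → Prop, IsTransferSystem R → (∀ e ∈ S, R e.1 e.2) →
      ∀ K H, T K H → R K H

/-- `S` is a minimal basis of `T`: a basis such that no proper subset generates `T`. -/
def IsMinimalBasis {G : Type*} [Group G] (S : Set (Subgroup G × Subgroup G))
    (T : Subgroup G → Subgroup G → Prop) : Prop :=
  IsBasis S T ∧ ∀ S' : Set (Subgroup G × Subgroup G), S' ⊂ S → ¬ IsBasis S' T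

/-- The sizes of the minimal bases of the transfer systems of `G`. -/
def basisSizes (G : Type*) [Group G] : Set ℕ :=
  {k | ∃ (T : Subgroup G → Subgroup G → Prop) (S : Set (Subgroup G × Subgroup G)),
    IsTransferSystem T ∧ IsMinimalBasis S T ∧ S.ncard = k}

/-- The complexity of the group `G`: the largest size of a minimal basis of a transfer system. -/
noncomputable def complexity (G : Type*) [Group G] : ℕ := sSup (basisSizes G)

section comm

variable {G : Type*} [CommGroup G]

lemma map_conj (K : Subgroup G) (g : G) : K.map (MulAut.conj g).toMonoidHom = K := by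
  have : (MulAut.conj g).toMonoidHom = MonoidHom.id G := by
    ext x
    simp
  rw [this, Subgroup.map_id]

lemma isTransferSystem_iff (R : Subgroup G → Subgroup G → Prop) :
    IsTransferSystem R ↔ IsTL R := by
  constructor
  · intro h
    exact ⟨h.refl, h.trans, h.le, h.restr⟩
  · intro h
    refine ⟨h.refl, fun K H h1 h2 => le_antisymm (h.le _ _ h1) (h.le _ _ h2), h.trans, h.le, ?_,
      h.restr⟩
    intro K H hKH g
    rw [map_conj, map_conj]
    exact hKH

lemma isBasis_iff (S : Set (Subgroup G × Subgroup G)) (T : Subgroup G → Subgroup G → Prop) :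
    IsBasis S T ↔ IsBas S T := by
  simp only [IsBasis, IsBas, isTransferSystem_iff]

variable [Finite G]

lemma basisSizes_upper {k B : ℕ}
    (hB : ∀ S : Set (Subgroup G × Subgroup G), Compat S → S.ncard ≤ B)
    (hk : k ∈ basisSizes G) : k ≤ B := by
  obtain ⟨T, S, hT, hS, rfl⟩ := hk
  rw [isTransferSystem_iff] at hT
  have h1 : IsBas S T := (isBasis_iff S T).1 hS.1
  have h2 : ∀ S' : Set (Subgroup G × Subgroup G), S' ⊂ S → ¬ IsBas S' T :=
    fun S' h h3 => hS.2 S' h ((isBasis_iff S' T).2 h3)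
  exact (minimal_le hT h1 h2).trans (hB _ (can_compat hT))

omit [Finite G] in
lemma mem_basisSizes {S : Set (Subgroup G × Subgroup G)} (hS : Compat S) :
    S.ncard ∈ basisSizes G := by
  refine ⟨Path S, S, (isTransferSystem_iff _).2 (path_isTL S), ⟨(isBasis_iff _ _).2
    (compat_minimal hS).1, ?_⟩, rfl⟩
  intro S' h h3
  exact (compat_minimal hS).2 S' h ((isBasis_iff _ _).1 h3)

end comm

section cyclic

variable {G : Type*} [CommGroup G] [IsCyclic G] {p q n m : ℕ}

/-- the subgroup of order `p ^ a * q ^ x` -/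
def sg (G : Type*) [CommGroup G] (p q : ℕ) (z : ℕ × ℕ) : Subgroup G :=
  (powMonoidHom (p ^ z.1 * q ^ z.2) : G →* G).ker

lemma card_sg [Finite G] (hG : Nat.card G = p ^ n * q ^ m) {z : ℕ × ℕ} (h1 : z.1 ≤ n)
    (h2 : z.2 ≤ m) : Nat.card (sg G p q z) = p ^ z.1 * q ^ z.2 := by
  rw [sg, IsCyclic.card_powMonoidHom_ker, hG]
  exact Nat.gcd_eq_right (Nat.mul_dvd_mul (pow_dvd_pow p h1) (pow_dvd_pow q h2))

lemma sg_le [Finite G] (hp : p.Prime) (hq : q.Prime) (hpq : p ≠ q)
    (hG : Nat.card G = p ^ n * q ^ m) {z w : ℕ × ℕ}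
    (h1 : z.1 ≤ n) (h2 : z.2 ≤ m) (h3 : w.1 ≤ n) (h4 : w.2 ≤ m) :
    sg G p q z ≤ sg G p q w ↔ z.1 ≤ w.1 ∧ z.2 ≤ w.2 := by
  constructor
  · intro h
    have h5 := Subgroup.card_dvd_of_le h
    rw [card_sg hG h1 h2, card_sg hG h3 h4] at h5
    have hcop : Nat.Coprime p q := (Nat.coprime_primes hp hq).2 hpq
    constructor
    · have h6 : p ^ z.1 ∣ p ^ w.1 * q ^ w.2 := (Dvd.intro _ rfl).trans h5
      have h7 : p ^ z.1 ∣ p ^ w.1 := (Nat.Coprime.pow z.1 w.2 hcop).dvd_of_dvd_mul_right h6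
      exact (Nat.pow_dvd_pow_iff_le_right hp.one_lt).1 h7
    · have h6 : q ^ z.2 ∣ p ^ w.1 * q ^ w.2 := (Dvd.intro_left _ rfl).trans h5
      have h7 : q ^ z.2 ∣ q ^ w.2 := (Nat.Coprime.pow z.2 w.1 hcop.symm).dvd_of_dvd_mul_left h6
      exact (Nat.pow_dvd_pow_iff_le_right hq.one_lt).1 h7
  · rintro ⟨h5, h6⟩ x hx
    rw [sg, MonoidHom.mem_ker, powMonoidHom_apply] at hx ⊢
    obtain ⟨c, hc⟩ := Nat.mul_dvd_mul (pow_dvd_pow p h5) (pow_dvd_pow q h6)
    rw [hc, pow_mul, hx, one_pow]

lemma exists_sg [Finite G] (hp : p.Prime) (hq : q.Prime)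
    (hG : Nat.card G = p ^ n * q ^ m) (K : Subgroup G) :
    ∃ z : ℕ × ℕ, z.1 ≤ n ∧ z.2 ≤ m ∧ K = sg G p q z := by
  have h1 : Nat.card K ∣ p ^ n * q ^ m := hG ▸ Subgroup.card_subgroup_dvd_card K
  obtain ⟨d1, d2, h2, h3, h4⟩ := exists_dvd_and_dvd_of_dvd_mul h1
  obtain ⟨a, ha, rfl⟩ := (Nat.dvd_prime_pow hp).1 h2
  obtain ⟨x, hx, rfl⟩ := (Nat.dvd_prime_pow hq).1 h3
  refine ⟨(a, x), ha, hx, ?_⟩
  refine Subgroup.eq_of_le_of_card_ge ?_ ?_
  · intro y hy
    rw [sg, MonoidHom.mem_ker, powMonoidHom_apply]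
    rw [← h4]
    have h5 : (⟨y, hy⟩ : K) ^ Nat.card K = 1 := pow_card_eq_one'
    have h6 := congrArg (fun z : K => (z : G)) h5
    exact h6
  · rw [card_sg hG ha hx, h4]

/-- from families of pairs of subgroups to families of intervals -/
lemma compat_card_le [Finite G] (hp : p.Prime) (hq : q.Prime) (hpq : p ≠ q)
    (hG : Nat.card G = p ^ n * q ^ m) {B : ℕ}
    (hB : ∀ S : Finset (ℤ × ℤ × ℤ × ℤ), (∀ e ∈ S, InG 0 0 n m e) → QInd S → S.card ≤ B)
    (S : Set (Subgroup G × Subgroup G)) (hS : Compat S) : S.ncard ≤ B := by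
  classical
  choose c h1 h2 h3 using exists_sg (n := n) (m := m) hp hq hG
  have hfin : S.Finite := Set.toFinite S
  let g : Subgroup G × Subgroup G → ℤ × ℤ × ℤ × ℤ :=
    fun e => ((c e.1).1, (c e.1).2, (c e.2).1, (c e.2).2)
  have hg : Function.Injective g := by
    intro e f h
    simp only [g, Prod.mk.injEq, Nat.cast_inj] at h
    have h4 : c e.1 = c f.1 := Prod.ext h.1 h.2.1
    have h5 : c e.2 = c f.2 := Prod.ext h.2.2.1 h.2.2.2
    exact Prod.ext (by rw [h3 e.1, h4, ← h3]) (by rw [h3 e.2, h5, ← h3])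
  have hle : ∀ K H : Subgroup G, K ≤ H ↔ (c K).1 ≤ (c H).1 ∧ (c K).2 ≤ (c H).2 := by
    intro K H
    have := sg_le (G := G) hp hq hpq hG (h1 K) (h2 K) (h1 H) (h2 H)
    rwa [← h3, ← h3] at this
  rw [Set.ncard_eq_toFinset_card S hfin, ← Finset.card_image_of_injective _ hg]
  refine hB _ ?_ ?_
  · intro e he
    rw [Finset.mem_image] at he
    obtain ⟨e, he, rfl⟩ := he
    rw [Set.Finite.mem_toFinset] at he
    have h4 := hS.1 e he
    rw [lt_iff_le_not_ge, hle, hle] at h4
    have h5 := h1 e.2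
    have h6 := h2 e.2
    simp only [InG, g]
    omega
  · intro e he f hf h
    rw [Finset.mem_image] at he hf
    obtain ⟨e, he, rfl⟩ := he
    obtain ⟨f, hf, rfl⟩ := hf
    rw [Set.Finite.mem_toFinset] at he hf
    by_cases hef : e = f
    · subst hef
      exact ⟨rfl, rfl, rfl, rfl⟩
    · exfalso
      simp only [QA, g, Nat.cast_le] at h
      have h4 := hS.2 e he f hf hef ((hle _ _).2 ⟨h.1, h.2.1⟩) ((hle _ _).2 ⟨h.2.2.1, h.2.2.2.1⟩)
      rw [hle] at h4
      exact h.2.2.2.2 h4

/-- from families of intervals to families of pairs of subgroups -/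
lemma compat_card_ge [Finite G] (hp : p.Prime) (hq : q.Prime) (hpq : p ≠ q)
    (hG : Nat.card G = p ^ n * q ^ m) (S : Finset (ℤ × ℤ × ℤ × ℤ))
    (hS : ∀ e ∈ S, InG 0 0 n m e) (hind : QInd S) : S.card ∈ basisSizes G := by
  classical
  let g : ℤ × ℤ × ℤ × ℤ → Subgroup G × Subgroup G :=
    fun e => (sg G p q (e.1.toNat, e.2.1.toNat), sg G p q (e.2.2.1.toNat, e.2.2.2.toNat))
  have hg : Set.InjOn g (S : Set (ℤ × ℤ × ℤ × ℤ)) := by
    intro e he f hf h
    have h1 := hS e he
    have h2 := hS f hf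
    simp only [InG] at h1 h2
    simp only [g, Prod.mk.injEq] at h
    have h3 := (sg_le (G := G) hp hq hpq hG (z := (e.1.toNat, e.2.1.toNat))
      (w := (f.1.toNat, f.2.1.toNat)) (by dsimp only; omega) (by dsimp only; omega)
      (by dsimp only; omega) (by dsimp only; omega)).1 h.1.le
    have h4 := (sg_le (G := G) hp hq hpq hG (z := (f.1.toNat, f.2.1.toNat))
      (w := (e.1.toNat, e.2.1.toNat)) (by dsimp only; omega) (by dsimp only; omega)
      (by dsimp only; omega) (by dsimp only; omega)).1 h.1.ge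
    have h5 := (sg_le (G := G) hp hq hpq hG (z := (e.2.2.1.toNat, e.2.2.2.toNat))
      (w := (f.2.2.1.toNat, f.2.2.2.toNat)) (by dsimp only; omega) (by dsimp only; omega)
      (by dsimp only; omega) (by dsimp only; omega)).1 h.2.le
    have h6 := (sg_le (G := G) hp hq hpq hG (z := (f.2.2.1.toNat, f.2.2.2.toNat))
      (w := (e.2.2.1.toNat, e.2.2.2.toNat)) (by dsimp only; omega) (by dsimp only; omega)
      (by dsimp only; omega) (by dsimp only; omega)).1 h.2.ge
    dsimp only at h3 h4 h5 h6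
    exact Prod.ext (by omega) (Prod.ext (by omega) (Prod.ext (by omega) (by omega)))
  have hcard : (g '' (S : Set (ℤ × ℤ × ℤ × ℤ))).ncard = S.card := by
    rw [Set.InjOn.ncard_image hg, Set.ncard_coe_finset]
  rw [← hcard]
  apply mem_basisSizes
  constructor
  · rintro _ ⟨e, he, rfl⟩
    have h1 := hS e he
    simp only [InG] at h1
    rw [lt_iff_le_not_ge]
    simp only [g]
    rw [sg_le (G := G) hp hq hpq hG (by dsimp only; omega) (by dsimp only; omega)
      (by dsimp only; omega) (by dsimp only; omega),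
      sg_le (G := G) hp hq hpq hG (by dsimp only; omega) (by dsimp only; omega)
      (by dsimp only; omega) (by dsimp only; omega)]
    dsimp only
    omega
  · rintro _ ⟨e, he, rfl⟩ _ ⟨f, hf, rfl⟩ hne h1 h2
    have h3 := hS e he
    have h4 := hS f hf
    simp only [InG] at h3 h4
    simp only [g] at h1 h2 ⊢
    rw [sg_le (G := G) hp hq hpq hG (by dsimp only; omega) (by dsimp only; omega)
      (by dsimp only; omega) (by dsimp only; omega)] at h1 h2 ⊢
    by_contra h5
    have h6 := hind e he f hf (by dsimp only at h1 h2 h5; simp only [QA]; omega)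
    exact hne (by rw [show e = f from Prod.ext h6.1 (Prod.ext h6.2.1
      (Prod.ext h6.2.2.1 h6.2.2.2))])

end cyclic

end Pool.Agent.H688.TS
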