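import Mathlib
import Pool.Agent.H688.TS.Group

/-!
# The complexity of cyclic groups of order `p ^ n * q ^ m`, `n + m` odd or `m = 2`
-/

set_option autoImplicit false
set_option maxHeartbeats 4000000

namespace Pool.Agent.H688.TS

lemma BB_odd (e m : ℕ) : BB (2 * e + 1 + (m + 1)) (m + 1) =
    e * (m + 3).choose 2 + (m + 4).choose 3 := by
  induction m with
  | zero =>
    simp only [BB]
    have h2 : (2 * e + 1 + (0 + 1)) / 2 = e + 1 := by omega
    rw [h2]
    norm_num [Nat.choose]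
    ring
  | succ m ih =>
    have h1 : 2 * e + 1 + (m + 1 + 1) - 1 = 2 * e + 1 + (m + 1) := by omega
    rw [BB, h1, ih]
    have h2 : (m + 1 + 3).choose 2 = (m + 3).choose 1 + (m + 3).choose 2 := rfl
    have h3 : (m + 1 + 4).choose 3 = (m + 4).choose 2 + (m + 4).choose 3 := rfl
    rw [h2, h3, Nat.choose_one_right]
    have h4 : 2 * (m + 4).choose 2 = (m + 4) * (m + 3) := by
      have := Nat.choose_two_right (m + 4)
      have h5 : (m + 4) * (m + 4 - 1) = (m + 4) * (m + 3) := by congr 1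
      rw [h5] at this
      have h6 : 2 ∣ (m + 4) * (m + 3) := by
        rw [mul_comm]
        exact (Nat.even_mul_succ_self (m + 3)).two_dvd
      omega
    have h7 : (2 * e + 1 + (m + 1 + 1) + 1) * (m + 3) + 1 =
        2 * (e * (m + 3)) + (m + 4) * (m + 3) + 1 := by ring
    rw [h7, ← h4]
    have h8 : (2 * (e * (m + 3)) + 2 * (m + 4).choose 2 + 1) / 2 =
        e * (m + 3) + (m + 4).choose 2 := by omega
    rw [h8]
    ring

/-- the conjectured value -/
def F (n m : ℕ) : ℕ :=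
  if (n + m) % 2 = 1 then (n - m - 1) / 2 * (m + 2).choose 2 + (m + 3).choose 3
  else if m = 2 then 6 * (n / 2) + 1
  else (n - m) / 2 * (m + 2).choose 2 + (m + 3).choose 3 - (m + 2) ^ 2 / 4

lemma BB_eq_F {n m : ℕ} (hm : 2 ≤ m) (hmn : m ≤ n) (h : Odd (n + m) ∨ m = 2) :
    BB n m = F n m := by
  by_cases hodd : (n + m) % 2 = 1
  · obtain ⟨k, rfl⟩ := Nat.exists_eq_add_of_le hm
    have h1 : ∃ e, n = 2 * e + 1 + (k + 1 + 1) := ⟨(n - (2 + k) - 1) / 2, by omega⟩
    obtain ⟨e, rfl⟩ := h1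
    have h2 : 2 + k = k + 1 + 1 := by ring
    rw [h2, BB_odd, F, if_pos (by omega)]
    have h3 : (2 * e + 1 + (k + 1 + 1) - (k + 1 + 1) - 1) / 2 = e := by omega
    rw [h3]
  · have hm2 : m = 2 := by
      rcases h with h | h
      · exact absurd (Nat.odd_iff.1 h) hodd
      · exact h
    subst hm2
    rw [F, if_neg hodd, if_pos rfl]
    simp only [BB]
    omega

/-- the family of the lower bound -/
lemma exists_family {n m : ℕ} (hm : 2 ≤ m) (hmn : m ≤ n) (h : Odd (n + m) ∨ m = 2) :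
    ∃ S : Finset (ℤ × ℤ × ℤ × ℤ), (∀ e ∈ S, InG 0 0 n m e) ∧ QInd S ∧ S.card = BB n m := by
  by_cases hodd : (n + m) % 2 = 1
  · obtain ⟨k, rfl⟩ := Nat.exists_eq_add_of_le hm
    have h1 : ∃ e, n = 2 * e + 1 + (k + 1 + 1) := ⟨(n - (2 + k) - 1) / 2, by omega⟩
    obtain ⟨e, rfl⟩ := h1
    have h2 : 2 + k = k + 1 + 1 := by ring
    rw [h2]
    refine ⟨mid (2 * e + 1) (k + 1 + 1), mid_inG (by omega), mid_ind, ?_⟩
    rw [card_mid, ← sum_ff]
  · have hm2 : m = 2 := by
      rcases h with h | h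
      · exact absurd (Nat.odd_iff.1 h) hodd
      · exact h
    subst hm2
    have h1 : ∃ k, n = 2 * k := ⟨n / 2, by omega⟩
    obtain ⟨k, rfl⟩ := h1
    refine ⟨twf k, tw_inG k (by omega), tw_ind k, ?_⟩
    rw [card_twf]
    simp only [BB]
    omega

theorem isGreatest_of {G : Type*} [CommGroup G] [IsCyclic G] {p q n m : ℕ} (hp : p.Prime)
    (hq : q.Prime) (hpq : p ≠ q) (hG : Nat.card G = p ^ n * q ^ m) (hm : 2 ≤ m) (hmn : m ≤ n)
    (h : Odd (n + m) ∨ m = 2) : IsGreatest (basisSizes G) (F n m) := by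
  haveI : Finite G := Nat.finite_of_card_ne_zero (by
    rw [hG]; exact Nat.mul_ne_zero (pow_ne_zero _ hp.ne_zero) (pow_ne_zero _ hq.ne_zero))
  rw [← BB_eq_F hm hmn h]
  constructor
  · obtain ⟨S, h1, h2, h3⟩ := exists_family hm hmn h
    rw [← h3]
    exact compat_card_ge hp hq hpq hG S h1 h2
  · intro k hk
    refine basisSizes_upper (fun S hS => compat_card_le hp hq hpq hG ?_ S hS) hk
    intro S h1 h2
    exact grid_bound m n (by omega) hmn 0 0 S h1 h2

end Pool.Agent.H688.TS
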