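import Mathlib
import Pool.Agent.H688.TS.Final
import Pool.Agent.H688.TS.EvenG
import Pool.Agent.H688.TS.EvenL

/-!
# The complexity of cyclic groups of order `p ^ n * q ^ m`
-/

set_option autoImplicit false
set_option maxHeartbeats 4000000

namespace Pool.Agent.H688.TS

/-- the bound of the even case -/
lemma even_case_bound {n m : ℕ} (hm : 3 ≤ m) (hmn : m ≤ n) (h : (n + m) % 2 = 0)
    (S : Finset (ℤ × ℤ × ℤ × ℤ)) (hS : ∀ e ∈ S, InG 0 0 n m e) (hind : QInd S) :
    S.card + m / 2 ≤ BB n m := by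
  obtain ⟨κ, rfl⟩ : ∃ κ, n = m + 2 * κ := ⟨(n - m) / 2, by omega⟩
  rcases Nat.even_or_odd' m with ⟨k, rfl | rfl⟩
  · obtain ⟨j, rfl⟩ : ∃ j, k = j + 2 := ⟨k - 2, by omega⟩
    have e1 : 2 * (j + 2) = 2 * j + 4 := by ring
    rw [e1] at hS ⊢
    have h1 := bound_even j κ 0 0 S hS hind
    omega
  · have h1 := bound_odd k κ 0 0 S hS hind
    omega

lemma BB_eq_F_even {n m : ℕ} (hm : 3 ≤ m) (hmn : m ≤ n) (h : (n + m) % 2 = 0) :
    BB n m = F n m + m / 2 := by
  obtain ⟨κ, rfl⟩ : ∃ κ, n = 2 * κ + m := ⟨(n - m) / 2, by omega⟩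
  obtain ⟨k, rfl⟩ : ∃ k, m = k + 1 := ⟨m - 1, by omega⟩
  have h1 := BB_even κ k
  rw [F, if_neg (by omega), if_neg (by omega)]
  have h2 : (2 * κ + (k + 1) - (k + 1)) / 2 = κ := by omega
  have h3 : k + 1 + 2 = k + 3 := by ring
  have h4 : k + 1 + 3 = k + 4 := by ring
  rw [h2, h3, h4]
  have h5 : (k + 3) ^ 2 / 4 ≤ (k + 4).choose 3 := by
    have h6 : (k + 3) ^ 2 ≤ 4 * (k + 4).choose 3 := by
      have h7 : (k + 4).choose 3 = (k + 3).choose 2 + (k + 3).choose 3 := rfl
      have h8 : (k + 3).choose 3 = (k + 2).choose 2 + (k + 2).choose 3 := rfl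
      have h9 : 2 * (k + 3).choose 2 = (k + 3) * (k + 2) := by
        have := Nat.choose_two_right (k + 3)
        have h5 : (k + 3) * (k + 3 - 1) = (k + 3) * (k + 2) := by congr 1
        rw [h5] at this
        have h6 : 2 ∣ (k + 3) * (k + 2) := by
          rw [mul_comm]
          exact (Nat.even_mul_succ_self (k + 2)).two_dvd
        omega
      have h10 : 2 * (k + 2).choose 2 = (k + 2) * (k + 1) := by
        have := Nat.choose_two_right (k + 2)
        have h5 : (k + 2) * (k + 2 - 1) = (k + 2) * (k + 1) := by congr 1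
        rw [h5] at this
        have h6 : 2 ∣ (k + 2) * (k + 1) := by
          rw [mul_comm]
          exact (Nat.even_mul_succ_self (k + 1)).two_dvd
        omega
      nlinarith
    omega
  omega

/-- the family of the lower bound, even case -/
lemma exists_family_even {n m : ℕ} (hm : 3 ≤ m) (hmn : m ≤ n) (h : (n + m) % 2 = 0) :
    ∃ S : Finset (ℤ × ℤ × ℤ × ℤ), (∀ e ∈ S, InG 0 0 n m e) ∧ QInd S ∧ S.card = F n m := by
  have h0 := BB_eq_F_even hm hmn h
  obtain ⟨κ, rfl⟩ : ∃ κ, n = 2 * κ + m := ⟨(n - m) / 2, by omega⟩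
  obtain ⟨k, rfl⟩ : ∃ k, m = k + 1 := ⟨m - 1, by omega⟩
  refine ⟨up κ (k + 1), up_inG, up_ind, ?_⟩
  have h1 := card_up κ (k + 1)
  have h2 := sum_up κ k
  have e1 : k + 1 + 1 = k + 2 := rfl
  rw [e1] at h1
  omega

theorem isGreatest_full {G : Type*} [CommGroup G] [IsCyclic G] {p q n m : ℕ} (hp : p.Prime)
    (hq : q.Prime) (hpq : p ≠ q) (hG : Nat.card G = p ^ n * q ^ m) (hm : 2 ≤ m) (hmn : m ≤ n) :
    IsGreatest (basisSizes G) (F n m) := by
  by_cases h : Odd (n + m) ∨ m = 2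
  · exact isGreatest_of hp hq hpq hG hm hmn h
  · rw [not_or, Nat.not_odd_iff] at h
    have : Finite G := Nat.finite_of_card_ne_zero (by
      rw [hG]; exact Nat.mul_ne_zero (pow_ne_zero _ hp.ne_zero) (pow_ne_zero _ hq.ne_zero))
    constructor
    · obtain ⟨S, h1, h2, h3⟩ := exists_family_even (n := n) (m := m) (by omega) hmn h.1
      rw [← h3]
      exact compat_card_ge hp hq hpq hG S h1 h2
    · intro k hk
      refine basisSizes_upper (fun S hS => compat_card_le hp hq hpq hG ?_ S hS) hk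
      intro S h1 h2
      have h3 := even_case_bound (by omega) hmn h.1 S h1 h2
      rw [BB_eq_F_even (by omega) hmn h.1] at h3
      omega

/-- the complexity is `F n m` -/
theorem complexity_eq {G : Type*} [CommGroup G] [IsCyclic G] {p q n m : ℕ} (hp : p.Prime)
    (hq : q.Prime) (hpq : p ≠ q) (hG : Nat.card G = p ^ n * q ^ m) (hm : 2 ≤ m) (hmn : m ≤ n) :
    complexity G = F n m :=
  (isGreatest_full hp hq hpq hG hm hmn).csSup_eq

end Pool.Agent.H688.TS
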